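import Mathlib

open Finset

namespace Pool.Agent.H682R2.Dom

/-- `S` is (out-)dominating in the digraph with arc relation `A`. -/
def IsDominating {V : Type} (A : V → V → Prop) (S : Finset V) : Prop :=
  ∀ v, v ∉ S → ∃ u ∈ S, A u v

/-- domination number -/
noncomputable def gamma {V : Type} (A : V → V → Prop) : ℕ :=
  sInf {k | ∃ S : Finset V, IsDominating A S ∧ S.card = k}

/-- reverse digraph -/
def rev {V : Type} (A : V → V → Prop) : V → V → Prop := fun u v => A v u

/-- `r`-regular strongly connected (loopless, simple) digraphs on `n` vertices -/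
def InClass (r n : ℕ) (A : Fin n → Fin n → Prop) : Prop :=
  (∀ v, ¬ A v v) ∧ (∀ v, Set.ncard {u | A u v} = r) ∧ (∀ v, Set.ncard {u | A v u} = r) ∧
    (∀ u v, Relation.ReflTransGen A u v)

/-- the same on an arbitrary type -/
def InClassT {V : Type} (r : ℕ) (A : V → V → Prop) : Prop :=
  (∀ v, ¬ A v v) ∧ (∀ v, Set.ncard {u | A u v} = r) ∧ (∀ v, Set.ncard {u | A v u} = r) ∧
    (∀ u v, Relation.ReflTransGen A u v)

lemma gamma_le {V : Type} {A : V → V → Prop} {S : Finset V} (h : IsDominating A S) :
    gamma A ≤ S.card := Nat.sInf_le ⟨S, h, rfl⟩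

lemma gamma_spec {V : Type} [Fintype V] (A : V → V → Prop) :
    ∃ S : Finset V, IsDominating A S ∧ S.card = gamma A := by
  have : (gamma A) ∈ {k | ∃ S : Finset V, IsDominating A S ∧ S.card = k} :=
    Nat.sInf_mem ⟨_, Finset.univ, by intro v hv; exact absurd (Finset.mem_univ v) hv, rfl⟩
  exact this

/-! ### the matching -/

section matching

variable {Y : Type} [Fintype Y] [DecidableEq Y] {k m : ℕ}

lemma exists_matching (hk : 0 < k) (b : Fin k → Y → Fin m)
    (hb : ∀ c j, (univ.filter fun y => b c y = j).card = k)
    (hY : Fintype.card Y = k * m) :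
    ∃ φ : (Fin k × Fin m) ≃ Y, ∀ x, b x.1 (φ x) = x.2 := by
  classical
  have hall := (Finset.all_card_le_biUnion_card_iff_exists_injective
    (fun x : Fin k × Fin m => univ.filter fun y => b x.1 y = x.2)).1 (by
      intro s
      have h1 : s.card * k = ∑ x ∈ s, (univ.filter fun y => b x.1 y = x.2).card := by
        rw [Finset.sum_congr rfl (fun x _ => hb x.1 x.2)]
        simp
      set N := s.biUnion (fun x : Fin k × Fin m => univ.filter fun y => b x.1 y = x.2) with hN
      have h2 : ∑ x ∈ s, (univ.filter fun y => b x.1 y = x.2).card ≤ N.card * k := by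
        have : ∀ x ∈ s, (univ.filter fun y => b x.1 y = x.2).card
            = ∑ y ∈ N, if b x.1 y = x.2 then 1 else 0 := by
          intro x hx
          rw [← Finset.card_filter]
          congr 1
          ext y
          simp only [mem_filter, mem_univ, true_and, hN, mem_biUnion]
          constructor
          · intro h; exact ⟨⟨x, hx, h⟩, h⟩
          · intro h; exact h.2
        rw [Finset.sum_congr rfl this, Finset.sum_comm]
        calc ∑ y ∈ N, ∑ x ∈ s, (if b x.1 y = x.2 then 1 else 0)
            ≤ ∑ y ∈ N, k := by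
              apply Finset.sum_le_sum
              intro y _
              rw [← Finset.card_filter]
              calc (s.filter fun x => b x.1 y = x.2).card
                  ≤ (univ.image fun c : Fin k => (c, b c y)).card := by
                    apply Finset.card_le_card
                    intro x hx
                    rw [mem_filter] at hx
                    rw [mem_image]
                    exact ⟨x.1, mem_univ _, by rw [hx.2]⟩
                _ ≤ (univ : Finset (Fin k)).card := Finset.card_image_le
                _ = k := by simp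
          _ = N.card * k := by simp
      have : s.card * k ≤ N.card * k := by rw [h1]; exact h2
      exact Nat.le_of_mul_le_mul_right this hk)
  obtain ⟨f, hf, hf2⟩ := hall
  have hcard : Fintype.card (Fin k × Fin m) = Fintype.card Y := by
    rw [hY]; simp
  have hbij : Function.Bijective f := (Fintype.bijective_iff_injective_and_card f).2 ⟨hf, hcard⟩
  refine ⟨Equiv.ofBijective f hbij, fun x => ?_⟩
  have := hf2 x
  simp only [mem_filter, mem_univ, true_and] at this
  simpa using this

end matching

/-! ### strong connectivity from regularity -/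

lemma closed_in {V : Type} [Fintype V] {A : V → V → Prop} {r : ℕ}
    (hin : ∀ v, Set.ncard {u | A u v} = r) (hout : ∀ v, Set.ncard {u | A v u} = r)
    (W : Set V) (hW : ∀ u ∈ W, ∀ v, A u v → v ∈ W) : ∀ v ∈ W, ∀ u, A u v → u ∈ W := by
  classical
  set E1 : Finset (V × V) := univ.filter fun e => e.1 ∈ W ∧ A e.1 e.2 with hE1
  set E2 : Finset (V × V) := univ.filter fun e => e.2 ∈ W ∧ A e.1 e.2 with hE2
  have hsub : E1 ⊆ E2 := by
    intro e he
    rw [hE1, mem_filter] at he
    rw [hE2, mem_filter]
    exact ⟨mem_univ _, hW _ he.2.1 _ he.2.2, he.2.2⟩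
  have hc1 : E1.card = ∑ u ∈ (univ.filter fun u => u ∈ W), r := by
    rw [hE1, Finset.card_filter, ← Finset.univ_product_univ, Finset.sum_product, Finset.sum_filter]
    apply Finset.sum_congr rfl
    intro u _
    by_cases hu : u ∈ W
    · simp only [hu, true_and, if_true]
      rw [← Finset.card_filter, ← hout u, Set.ncard_eq_toFinset_card']
      congr 1
      ext v; simp
    · simp [hu]
  have hc2 : E2.card = ∑ u ∈ (univ.filter fun u => u ∈ W), r := by
    rw [hE2, Finset.card_filter, ← Finset.univ_product_univ, Finset.sum_product_right,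
      Finset.sum_filter]
    apply Finset.sum_congr rfl
    intro v _
    by_cases hv : v ∈ W
    · simp only [hv, true_and, if_true]
      rw [← Finset.card_filter, ← hin v, Set.ncard_eq_toFinset_card']
      congr 1
      ext u; simp
    · simp [hv]
  have heq : E1 = E2 := Finset.eq_of_subset_of_card_le hsub (by rw [hc1, hc2])
  intro v hv u hu
  have : (u, v) ∈ E2 := by rw [hE2, mem_filter]; exact ⟨mem_univ _, hv, hu⟩
  rw [← heq, hE1, mem_filter] at this
  exact this.2.1

/-! ### the digraph of a resolvable family -/

theorem construct {Y : Type} [Fintype Y] [DecidableEq Y] {k m t : ℕ} (hk : 0 < k) (hm : 0 < m)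
    (b : Fin k → Y → Fin m)
    (hb : ∀ c j, (univ.filter fun y => b c y = j).card = k)
    (hY : Fintype.card Y = k * m)
    (hconn : ∀ W : Set Y, W.Nonempty → (∀ y ∈ W, ∀ y', ∀ c, b c y = b c y' → y' ∈ W) →
      ∀ y, y ∈ W)
    (hT : ∀ T : Finset Y, T.card ≤ t → ∃ c j, ∀ y ∈ T, b c y ≠ j) :
    ∃ A : Y → Y → Prop, InClassT (k - 1) A ∧ gamma A ≤ m ∧ t + 1 ≤ gamma (rev A) := by
  classical
  obtain ⟨φ, hφ⟩ := exists_matching hk b hb hY
  let A : Y → Y → Prop := fun u v => u ≠ v ∧ b (φ.symm u).1 v = (φ.symm u).2
  have hself : ∀ u, b (φ.symm u).1 u = (φ.symm u).2 := by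
    intro u
    have := hφ (φ.symm u)
    simpa using this
  have hloop : ∀ v, ¬ A v v := fun v h => h.1 rfl
  have hout : ∀ v, Set.ncard {u | A v u} = k - 1 := by
    intro v
    have h1 : {u | A v u} = (((univ.filter fun y => b (φ.symm v).1 y = (φ.symm v).2).erase v
        : Finset Y) : Set Y) := by
      ext u
      simp only [Set.mem_setOf_eq, coe_erase, coe_filter, mem_univ, true_and, Set.mem_diff,
        Set.mem_singleton_iff, A]
      constructor
      · intro h; exact ⟨h.2, fun h' => h.1 h'.symm⟩
      · intro h; exact ⟨fun h' => h.2 h'.symm, h.1⟩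
    rw [h1, Set.ncard_coe_finset, Finset.card_erase_of_mem, hb]
    simp [hself v]
  have hin : ∀ v, Set.ncard {u | A u v} = k - 1 := by
    intro v
    have h1 : {u | A u v} = (((univ.image fun c : Fin k => φ (c, b c v)).erase v
        : Finset Y) : Set Y) := by
      ext u
      simp only [Set.mem_setOf_eq, coe_erase, coe_image, coe_univ, Set.image_univ, Set.mem_diff,
        Set.mem_range, Set.mem_singleton_iff, A]
      constructor
      · intro h
        refine ⟨⟨(φ.symm u).1, ?_⟩, h.1⟩
        rw [h.2]; simp
      · rintro ⟨⟨c, hc⟩, hne⟩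
        refine ⟨hne, ?_⟩
        rw [← hc]; simp
    rw [h1, Set.ncard_coe_finset, Finset.card_erase_of_mem, Finset.card_image_of_injective]
    · simp
    · intro c c' h
      have := φ.injective h
      exact (Prod.mk.inj this).1
    · rw [mem_image]
      refine ⟨(φ.symm v).1, mem_univ _, ?_⟩
      rw [hself v]; simp
  refine ⟨A, ⟨hloop, hin, hout, ?_⟩, ?_, ?_⟩
  · intro u v
    let W : Set Y := {v | Relation.ReflTransGen A u v}
    have hW : ∀ x ∈ W, ∀ y, A x y → y ∈ W := fun x hx y hxy => Relation.ReflTransGen.tail hx hxy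
    have hW' := closed_in hin hout W hW
    have key := hconn W ⟨u, Relation.ReflTransGen.refl⟩ ?_ v
    · exact key
    intro y hy y' c hc
    -- block (c, b c y)
    set x : Fin k × Fin m := (c, b c y) with hx
    have hφx : φ x ∈ W := by
      by_cases h : φ x = y
      · rw [h]; exact hy
      · exact hW' y hy (φ x) ⟨h, by simp [hx]⟩
    by_cases h : φ x = y'
    · rw [← h]; exact hφx
    · exact hW (φ x) hφx y' ⟨h, by simp [hx, hc]⟩
  · -- gamma A ≤ m
    have hdom : IsDominating A (univ.image fun j : Fin m => φ (⟨0, hk⟩, j)) := by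
      intro v hv
      refine ⟨φ (⟨0, hk⟩, b ⟨0, hk⟩ v), mem_image_of_mem _ (mem_univ _), ?_, by simp⟩
      intro h
      apply hv
      rw [← h]
      exact mem_image_of_mem _ (mem_univ _)
    refine (gamma_le hdom).trans (Finset.card_image_le.trans (by simp))
  · obtain ⟨T, hTd, hTc⟩ := gamma_spec (rev A)
    by_contra hlt
    obtain ⟨c, j, hcj⟩ := hT T (by omega)
    have h1 : b c (φ (c, j)) = j := hφ (c, j)
    by_cases hmem : φ (c, j) ∈ T
    · exact hcj _ hmem h1
    · obtain ⟨u, hu, hA⟩ := hTd _ hmem
      have : b (φ.symm (φ (c, j))).1 u = (φ.symm (φ (c, j))).2 := hA.2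
      simp at this
      exact hcj u hu this

/-! ### transport to `Fin n` -/

lemma transport {V : Type} [Fintype V] {n r : ℕ} (hn : Fintype.card V = n) (A : V → V → Prop)
    (hA : InClassT r A) :
    ∃ A' : Fin n → Fin n → Prop, InClass r n A' ∧ gamma A' = gamma A ∧
      gamma (rev A') = gamma (rev A) := by
  classical
  let e : V ≃ Fin n := Fintype.equivFinOfCardEq hn
  have hg : ∀ B : V → V → Prop, gamma (fun u v : Fin n => B (e.symm u) (e.symm v)) = gamma B := by
    intro B
    unfold gamma
    congr 1
    ext k
    constructor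
    · rintro ⟨S, hS, hc⟩
      refine ⟨S.map e.symm.toEmbedding, ?_, by simpa using hc⟩
      intro v hv
      obtain ⟨u, hu, huv⟩ := hS (e v) (by
        intro h; apply hv
        rw [mem_map]; exact ⟨e v, h, by simp⟩)
      refine ⟨e.symm u, mem_map_of_mem _ hu, by simpa using huv⟩
    · rintro ⟨S, hS, hc⟩
      refine ⟨S.map e.toEmbedding, ?_, by simpa using hc⟩
      intro v hv
      obtain ⟨u, hu, huv⟩ := hS (e.symm v) (by
        intro h; apply hv
        rw [mem_map]; exact ⟨e.symm v, h, by simp⟩)
      refine ⟨e u, mem_map_of_mem _ hu, by simpa using huv⟩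
  refine ⟨fun u v => A (e.symm u) (e.symm v), ⟨fun v => hA.1 _, fun v => ?_, fun v => ?_, ?_⟩,
    hg A, hg (rev A)⟩
  · rw [← hA.2.1 (e.symm v)]
    have : {u | A (e.symm u) (e.symm v)} = e '' {u | A u (e.symm v)} := by
      ext u
      simp only [Set.mem_setOf_eq, Set.mem_image]
      constructor
      · intro h; exact ⟨e.symm u, h, by simp⟩
      · rintro ⟨w, hw, rfl⟩; simpa using hw
    rw [this, Set.ncard_image_of_injective _ e.injective]
  · rw [← hA.2.2.1 (e.symm v)]
    have : {u | A (e.symm v) (e.symm u)} = e '' {u | A (e.symm v) u} := by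
      ext u
      simp only [Set.mem_setOf_eq, Set.mem_image]
      constructor
      · intro h; exact ⟨e.symm u, h, by simp⟩
      · rintro ⟨w, hw, rfl⟩; simpa using hw
    rw [this, Set.ncard_image_of_injective _ e.injective]
  · intro u v
    have h := hA.2.2.2 (e.symm u) (e.symm v)
    have key : ∀ x y, Relation.ReflTransGen A x y →
        Relation.ReflTransGen (fun u v : Fin n => A (e.symm u) (e.symm v)) (e x) (e y) := by
      intro x y hxy
      induction hxy with
      | refl => exact Relation.ReflTransGen.refl
      | tail _ h2 ih => exact Relation.ReflTransGen.tail ih (by simpa using h2)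
    simpa using key _ _ h

end Pool.Agent.H682R2.Dom
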