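import Mathlib
import Pool.Agent.H682R2.DomA

open Finset

namespace Pool.Agent.H682R2.Dom

/-! ### greedy covering -/

lemma greedy {V : Type} [Fintype V] [DecidableEq V] (cov : V → Finset V) {k : ℕ} (hk : 1 ≤ k)
    (h1 : ∀ x, (univ.filter fun y => x ∈ cov y).card = k) :
    ∀ d : ℕ, 1 ≤ d → ∀ N : ℕ, ∀ U : Finset V, U.card = N → (∀ y, (cov y ∩ U).card ≤ d) →
      ∃ T : Finset V, (∀ x ∈ U, ∃ y ∈ T, x ∈ cov y) ∧
        (T.card : ℝ) ≤ (U.card : ℝ) / d + (Fintype.card V : ℝ) / k * ((harmonic d : ℚ) - 1 : ℝ) := by
  intro d hd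
  induction d, hd using Nat.le_induction with
  | base =>
    intro N U _ _
    have hex : ∀ x, ∃ y, x ∈ cov y := by
      intro x
      have : (univ.filter fun y => x ∈ cov y).Nonempty := by
        rw [← Finset.card_pos, h1]; omega
      obtain ⟨y, hy⟩ := this
      exact ⟨y, (mem_filter.1 hy).2⟩
    choose f hf using hex
    refine ⟨U.image f, fun x hx => ⟨f x, mem_image_of_mem _ hx, hf x⟩, ?_⟩
    have : (U.image f).card ≤ U.card := Finset.card_image_le
    have h2 : ((harmonic 1 : ℚ) : ℝ) = 1 := by simp [harmonic]
    rw [h2]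
    simp
    exact_mod_cast this
  | succ d hd ih =>
    intro N
    induction N using Nat.strong_induction_on with
    | _ N ihN =>
    intro U hU hcov
    by_cases hex : ∃ y, (cov y ∩ U).card = d + 1
    · obtain ⟨y, hy⟩ := hex
      have hc : (U \ cov y).card + (d + 1) = U.card := by
        rw [← hy, inter_comm]
        exact Finset.card_sdiff_add_card_inter U (cov y)
      obtain ⟨T, hT, hTc⟩ := ihN (U \ cov y).card (by omega) (U \ cov y) rfl (by
        intro z
        refine (Finset.card_le_card ?_).trans (hcov z)
        exact Finset.inter_subset_inter (Finset.Subset.refl _) sdiff_subset)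
      refine ⟨insert y T, ?_, ?_⟩
      · intro x hx
        by_cases hxy : x ∈ cov y
        · exact ⟨y, mem_insert_self _ _, hxy⟩
        · obtain ⟨z, hz, hxz⟩ := hT x (mem_sdiff.2 ⟨hx, hxy⟩)
          exact ⟨z, mem_insert_of_mem hz, hxz⟩
      · have h3 : ((insert y T).card : ℝ) ≤ T.card + 1 := by exact_mod_cast card_insert_le _ _
        have h4 : (((U \ cov y).card : ℝ)) = (U.card : ℝ) - (d + 1) := by
          have : ((U \ cov y).card : ℝ) + (d + 1) = U.card := by exact_mod_cast hc
          linarith
        have hd0 : ((d : ℝ) + 1) ≠ 0 := by positivity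
        push_cast at hTc ⊢
        rw [h4] at hTc
        have : ((U.card : ℝ) - (d + 1)) / (d + 1) = (U.card : ℝ) / (d + 1) - 1 := by
          field_simp
        rw [this] at hTc
        linarith
    · have hcov' : ∀ y, (cov y ∩ U).card ≤ d := by
        intro y
        have h1 := hcov y
        have h2 : (cov y ∩ U).card ≠ d + 1 := fun h => hex ⟨y, h⟩
        omega
      obtain ⟨T, hT, hTc⟩ := ih U.card U rfl hcov'
      refine ⟨T, hT, hTc.trans ?_⟩
      have hsum : U.card * k ≤ Fintype.card V * d := by
        calc U.card * k = ∑ x ∈ U, (univ.filter fun y => x ∈ cov y).card := by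
              rw [Finset.sum_congr rfl (fun x _ => h1 x)]; simp
          _ = ∑ x ∈ U, ∑ y : V, (if x ∈ cov y then 1 else 0) := by
              apply Finset.sum_congr rfl; intro x _; rw [Finset.card_filter]
          _ = ∑ y : V, ∑ x ∈ U, (if x ∈ cov y then 1 else 0) := Finset.sum_comm
          _ ≤ ∑ y : V, d := by
              apply Finset.sum_le_sum
              intro y _
              rw [← Finset.card_filter]
              refine (Finset.card_le_card ?_).trans (hcov' y)
              intro x hx
              rw [mem_filter] at hx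
              exact mem_inter.2 ⟨hx.2, hx.1⟩
          _ = Fintype.card V * d := by simp
      have hk0 : (0 : ℝ) < k := by exact_mod_cast hk
      have hd0 : (0 : ℝ) < d := by exact_mod_cast hd
      have hsumR : (U.card : ℝ) * k ≤ Fintype.card V * d := by exact_mod_cast hsum
      have hU2 : (U.card : ℝ) ≤ Fintype.card V / k * d := by
        rw [div_mul_eq_mul_div, le_div_iff₀ hk0]; exact hsumR
      rw [harmonic_succ]
      push_cast
      have e1 : (U.card : ℝ) / d = U.card / (d + 1) + U.card / (d * (d + 1)) := by
        field_simp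
      have e2 : (U.card : ℝ) / (d * (d + 1)) ≤ Fintype.card V / k * (1 / (d + 1)) := by
        rw [div_le_iff₀ (by positivity)]
        have : (Fintype.card V : ℝ) / k * (1 / (d + 1)) * (d * (d + 1))
            = Fintype.card V / k * d := by field_simp
        rw [this]; exact hU2
      have e3 : (Fintype.card V : ℝ) / k * ((harmonic d : ℚ) + ((d : ℝ) + 1)⁻¹ - 1)
          = Fintype.card V / k * ((harmonic d : ℚ) - 1) + Fintype.card V / k * (1 / (d + 1)) := by
        rw [one_div]; ring
      rw [e3, e1]
      linarith

/-- `γ(D⁻) ≤ n H_{r+1} / (r+1)`. -/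
theorem gamma_rev_le {V : Type} [Fintype V] [DecidableEq V] {r : ℕ} (A : V → V → Prop)
    (hl : ∀ v, ¬ A v v) (hin : ∀ v, Set.ncard {u | A u v} = r)
    (hout : ∀ v, Set.ncard {u | A v u} = r) :
    (gamma (rev A) : ℝ) ≤ (Fintype.card V : ℝ) / (r + 1) * ((harmonic (r + 1) : ℚ) : ℝ) := by
  classical
  let cov : V → Finset V := fun u => insert u (univ.filter fun v => A v u)
  have h1 : ∀ x, (univ.filter fun y => x ∈ cov y).card = r + 1 := by
    intro x
    have : (univ.filter fun y => x ∈ cov y) = insert x (univ.filter fun y => A x y) := by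
      ext y
      simp only [mem_filter, mem_univ, true_and, mem_insert, cov]
      constructor
      · rintro (h | h)
        · exact Or.inl h.symm
        · exact Or.inr h
      · rintro (h | h)
        · exact Or.inl h.symm
        · exact Or.inr h
    rw [this, card_insert_of_notMem (by simp [hl]), ← hout x, Set.ncard_eq_toFinset_card']
    congr 2
    ext y; simp
  have h2 : ∀ y, (cov y ∩ univ).card ≤ r + 1 := by
    intro y
    rw [inter_univ]
    show (insert y (univ.filter fun v => A v y)).card ≤ r + 1
    refine (card_insert_le _ _).trans ?_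
    rw [← hin y, Set.ncard_eq_toFinset_card']
    apply Nat.succ_le_succ
    apply le_of_eq
    congr 1
    ext v; simp
  obtain ⟨T, hT, hTc⟩ := greedy cov (by omega : 1 ≤ r + 1) h1 (r + 1) (by omega) _ univ rfl h2
  have hdom : IsDominating (rev A) T := by
    intro v hv
    obtain ⟨y, hy, hvy⟩ := hT v (mem_univ _)
    refine ⟨y, hy, ?_⟩
    rcases mem_insert.1 hvy with h | h
    · exact absurd (h ▸ hy) hv
    · exact (mem_filter.1 h).2
  have h3 : (gamma (rev A) : ℝ) ≤ T.card := by exact_mod_cast gamma_le hdom
  refine h3.trans (hTc.trans (le_of_eq ?_))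
  rw [card_univ]
  push_cast
  ring

/-- `γ(D) ≥ n / (r+1)`. -/
theorem le_gamma {V : Type} [Fintype V] [DecidableEq V] {r : ℕ} (A : V → V → Prop)
    (hout : ∀ v, Set.ncard {u | A v u} = r) :
    Fintype.card V ≤ gamma A * (r + 1) := by
  classical
  obtain ⟨S, hS, hc⟩ := gamma_spec A
  rw [← hc]
  have : (univ : Finset V) ⊆ S.biUnion fun u => insert u (univ.filter fun v => A u v) := by
    intro v _
    rw [mem_biUnion]
    by_cases hv : v ∈ S
    · exact ⟨v, hv, mem_insert_self _ _⟩
    · obtain ⟨u, hu, hA⟩ := hS v hv
      exact ⟨u, hu, mem_insert_of_mem (mem_filter.2 ⟨mem_univ _, hA⟩)⟩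
  calc Fintype.card V = (univ : Finset V).card := card_univ.symm
    _ ≤ (S.biUnion fun u => insert u (univ.filter fun v => A u v)).card := card_le_card this
    _ ≤ ∑ u ∈ S, (insert u (univ.filter fun v => A u v)).card := card_biUnion_le
    _ ≤ ∑ u ∈ S, (r + 1) := by
        apply sum_le_sum
        intro u _
        refine (card_insert_le _ _).trans ?_
        rw [← hout u, Set.ncard_eq_toFinset_card']
        apply Nat.succ_le_succ
        apply le_of_eq
        congr 1
        ext v; simp
    _ = S.card * (r + 1) := by simp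

end Pool.Agent.H682R2.Dom
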