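import Mathlib
import Pool.Agent.H682R2.DomB

open Finset
open scoped Fin.NatCast Fin.CommRing

namespace Pool.Agent.H682R2.Dom

/-- shift the first column by one row -/
def shift (m k : ℕ) [NeZero m] : Equiv.Perm (Fin m × Fin k) where
  toFun y := (if y.2.val = 0 then y.1 + 1 else y.1, y.2)
  invFun y := (if y.2.val = 0 then y.1 - 1 else y.1, y.2)
  left_inv y := by
    by_cases h : y.2.val = 0 <;> simp [h]
  right_inv y := by
    by_cases h : y.2.val = 0 <;> simp [h]

lemma row_card (m k : ℕ) (j : Fin m) :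
    (univ.filter fun y : Fin m × Fin k => y.1 = j).card = k := by
  have : (univ.filter fun y : Fin m × Fin k => y.1 = j)
      = (univ : Finset (Fin k)).image fun i => (j, i) := by
    ext y
    simp only [mem_filter, mem_univ, true_and, mem_image]
    constructor
    · intro h; exact ⟨y.2, by rw [← h]⟩
    · rintro ⟨i, rfl⟩; rfl
  rw [this, card_image_of_injective]
  · simp
  · intro a b h; exact (Prod.mk.inj h).2

lemma perm_fiber {m k : ℕ} (σ : Equiv.Perm (Fin m × Fin k)) (j : Fin m) :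
    (univ.filter fun y => (σ y).1 = j).card = k := by
  refine Eq.trans ?_ (row_card m k j)
  apply Finset.card_bij (fun y _ => σ y)
  · intro y hy
    simpa using hy
  · intro a _ b _ h; exact σ.injective h
  · intro y hy
    refine ⟨σ.symm y, ?_, by simp⟩
    simpa using hy

lemma exists_perm {m k : ℕ} [NeZero m] (B : Finset (Fin m × Fin k)) (hB : B.card = k) :
    ∃ σ : Equiv.Perm (Fin m × Fin k), ∀ y, (σ y).1 = 0 ↔ y ∈ B := by
  classical
  let R : Finset (Fin m × Fin k) := univ.filter fun y => y.1 = 0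
  have hR : R.card = k := row_card m k 0
  let e : {x // x ∈ B} ≃ {x // x ∈ R} := Finset.equivOfCardEq (by rw [hB, hR])
  refine ⟨e.extendSubtype, fun y => ?_⟩
  constructor
  · intro h
    by_contra hy
    have := e.extendSubtype_not_mem y hy
    exact this (by simp [R, h])
  · intro h
    have := e.extendSubtype_mem y h
    simpa [R] using this

theorem build (m k : ℕ) [NeZero m] (hk : 2 ≤ k) (B : ℕ → Finset (Fin m × Fin k))
    (hB : ∀ c, (B c).card = k) :
    ∃ b : Fin k → Fin m × Fin k → Fin m,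
      (∀ c j, (univ.filter fun y => b c y = j).card = k) ∧
      (∀ y, b ⟨0, by omega⟩ y = y.1) ∧
      (∀ y, b ⟨1, by omega⟩ y = (shift m k y).1) ∧
      (∀ c (h : c + 2 < k), ∀ y, b ⟨c + 2, h⟩ y = 0 ↔ y ∈ B c) ∧
      (∀ W : Set (Fin m × Fin k), W.Nonempty →
        (∀ y ∈ W, ∀ y', ∀ c, b c y = b c y' → y' ∈ W) → ∀ y, y ∈ W) := by
  classical
  have hex : ∀ c, ∃ σ : Equiv.Perm (Fin m × Fin k), ∀ y, (σ y).1 = 0 ↔ y ∈ B c :=
    fun c => exists_perm (B c) (hB c)
  choose τ hτ using hex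
  let σ : ℕ → Equiv.Perm (Fin m × Fin k) := fun n =>
    match n with
    | 0 => 1
    | 1 => shift m k
    | (c + 2) => τ c
  refine ⟨fun c y => (σ c.val y).1, fun c j => perm_fiber (σ c.val) j, fun y => rfl,
    fun y => rfl, fun c h y => hτ c y, ?_⟩
  intro W hne hW
  have h0 : ∀ y ∈ W, ∀ y', y.1 = y'.1 → y' ∈ W := fun y hy y' h =>
    hW y hy y' ⟨0, by omega⟩ h
  have h1 : ∀ y ∈ W, ∀ y', (shift m k y).1 = (shift m k y').1 → y' ∈ W := fun y hy y' h =>
    hW y hy y' ⟨1, by omega⟩ h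
  obtain ⟨y0, hy0⟩ := hne
  have hstep : ∀ j : Fin m, (∀ y : Fin m × Fin k, y.1 = j → y ∈ W) →
      ∀ y : Fin m × Fin k, y.1 = j + 1 → y ∈ W := by
    intro j hj y hy
    have h2 : ((j, ⟨0, by omega⟩) : Fin m × Fin k) ∈ W := hj _ rfl
    have h3 : ((j + 1, ⟨1, by omega⟩) : Fin m × Fin k) ∈ W := by
      apply h1 _ h2
      simp [shift]
    exact h0 _ h3 y hy.symm
  have hall : ∀ n : ℕ, ∀ y : Fin m × Fin k, y.1 = y0.1 + (n : Fin m) → y ∈ W := by
    intro n
    induction n with
    | zero => intro y hy; exact h0 y0 hy0 y (by rw [hy]; simp)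
    | succ n ih =>
      intro y hy
      apply hstep (y0.1 + (n : Fin m)) ih y
      rw [hy]; push_cast; ring
  intro y
  apply hall (y.1 - y0.1).val y
  rw [Fin.cast_val_eq_self]
  ring

end Pool.Agent.H682R2.Dom
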