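import Mathlib
import Pool.Agent.H682R2.DomC

open Finset

namespace Pool.Agent.H682R2.Dom

lemma card_two (k : ℕ) (P Q : Fin k → Prop) [DecidablePred P] [DecidablePred Q] :
    (univ.filter fun y : Fin 2 × Fin k => if y.1 = 0 then P y.2 else Q y.2).card
      = (univ.filter P).card + (univ.filter Q).card := by
  rw [Finset.card_filter, Fintype.sum_prod_type, Fin.sum_univ_two, Finset.card_filter,
    Finset.card_filter]
  simp

lemma card_val (k a c : ℕ) (hc : c ≤ k) :
    (univ.filter fun i : Fin k => a ≤ i.val ∧ i.val < c).card = c - a := by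
  have : (univ.filter fun i : Fin k => a ≤ i.val ∧ i.val < c).map Fin.valEmbedding
      = Finset.Ico a c := by
    ext x
    simp only [mem_map, mem_filter, mem_univ, true_and, Fin.valEmbedding_apply, mem_Ico]
    constructor
    · rintro ⟨i, hi, rfl⟩; exact hi
    · intro h; exact ⟨⟨x, by omega⟩, h, rfl⟩
  rw [← Finset.card_map Fin.valEmbedding, this, Nat.card_Ico]

theorem three_halves (k : ℕ) (hk : 4 ≤ k) :
    ∃ A : Fin (k * 2) → Fin (k * 2) → Prop, InClass (k - 1) (k * 2) A ∧ gamma A ≤ 2 ∧
      3 ≤ gamma (rev A) := by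
  classical
  let B2 : Finset (Fin 2 × Fin k) := univ.filter fun y =>
    if y.1 = 0 then (0 ≤ y.2.val ∧ y.2.val < (k + 1) / 2) else (0 ≤ y.2.val ∧ y.2.val < k / 2)
  let B3 : Finset (Fin 2 × Fin k) := univ.filter fun y =>
    if y.1 = 0 then (k % 2 ≤ y.2.val ∧ y.2.val < (k + 1) / 2) else (k / 2 ≤ y.2.val ∧ y.2.val < k)
  have hB2 : B2.card = k := by
    show (univ.filter _).card = k
    rw [card_two k (fun i => 0 ≤ i.val ∧ i.val < (k + 1) / 2) (fun i => 0 ≤ i.val ∧ i.val < k / 2),
      card_val k 0 _ (by omega), card_val k 0 _ (by omega)]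
    omega
  have hB3 : B3.card = k := by
    show (univ.filter _).card = k
    rw [card_two k (fun i => k % 2 ≤ i.val ∧ i.val < (k + 1) / 2)
      (fun i => k / 2 ≤ i.val ∧ i.val < k),
      card_val k _ _ (by omega), card_val k _ _ (by omega)]
    omega
  let B : ℕ → Finset (Fin 2 × Fin k) := fun c => if c = 0 then B2 else B3
  have hB : ∀ c, (B c).card = k := by
    intro c
    by_cases h : c = 0 <;> simp [B, h, hB2, hB3]
  obtain ⟨b, hb, hb0, hb1, hbc, hconn⟩ := build 2 k (by omega) B hB
  have hc2 : ∀ y, b ⟨2, by omega⟩ y = 0 ↔ y ∈ B2 := fun y => by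
    have := hbc 0 (by omega) y
    simpa [B] using this
  have hc3 : ∀ y, b ⟨3, by omega⟩ y = 0 ↔ y ∈ B3 := fun y => by
    have := hbc 1 (by omega) y
    simpa [B] using this
  have fin2 : ∀ a c : Fin 2, (a = 0 ↔ c = 0) → a = c := by decide
  -- any two points are together in some class
  have key0 : ∀ i i' : Fin k, ∃ c, b c (0, i) = b c (1, i') := by
    intro i i'
    by_cases h1 : i.val < (k + 1) / 2
    · by_cases h2 : i'.val < k / 2
      · exact ⟨_, fin2 _ _ (by rw [hc2, hc2]; simp [B2, h1, h2])⟩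
      · by_cases h3 : k % 2 ≤ i.val
        · refine ⟨_, fin2 _ _ (by rw [hc3, hc3]; simp [B3, h1, h3]; omega)⟩
        · refine ⟨⟨1, by omega⟩, ?_⟩
          rw [hb1, hb1]
          have e1 : i.val = 0 := by omega
          have e2 : i'.val ≠ 0 := by omega
          simp [shift, e1, e2]
    · by_cases h2 : i'.val < k / 2
      · refine ⟨_, fin2 _ _ (by rw [hc3, hc3]; simp [B3, h1]; omega)⟩
      · exact ⟨_, fin2 _ _ (by rw [hc2, hc2]; simp [B2, h1, h2])⟩
  have key : ∀ y y' : Fin 2 × Fin k, ∃ c, b c y = b c y' := by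
    rintro ⟨j, i⟩ ⟨j', i'⟩
    by_cases h : j = j'
    · exact ⟨_, by rw [hb0, hb0]; exact h⟩
    · have : (j = 0 ∧ j' = 1) ∨ (j = 1 ∧ j' = 0) := by
        revert h; revert j j'; decide
      rcases this with ⟨rfl, rfl⟩ | ⟨rfl, rfl⟩
      · exact key0 i i'
      · obtain ⟨c, hc⟩ := key0 i' i
        exact ⟨c, hc.symm⟩
  have other : ∀ a : Fin 2, ∃ j, a ≠ j := by decide
  have hT : ∀ T : Finset (Fin 2 × Fin k), T.card ≤ 2 → ∃ c j, ∀ y ∈ T, b c y ≠ j := by
    intro T hT
    by_cases h0 : T.card ≤ 1
    · haveI : Nonempty (Fin 2 × Fin k) := ⟨(0, ⟨0, by omega⟩)⟩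
      rcases Finset.card_le_one_iff_subset_singleton.1 h0 with ⟨x, hx⟩
      obtain ⟨j, hj⟩ := other (b ⟨0, by omega⟩ x)
      refine ⟨⟨0, by omega⟩, j, fun y hy => ?_⟩
      have := hx hy
      rw [mem_singleton] at this
      rw [this]; exact hj
    · have h2 : T.card = 2 := by omega
      rw [Finset.card_eq_two] at h2
      obtain ⟨x, y, _, rfl⟩ := h2
      obtain ⟨c, hc⟩ := key x y
      obtain ⟨j, hj⟩ := other (b c x)
      refine ⟨c, j, fun z hz => ?_⟩
      rw [mem_insert, mem_singleton] at hz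
      rcases hz with rfl | rfl
      · exact hj
      · rw [← hc]; exact hj
  obtain ⟨A, hA, hA1, hA2⟩ := construct (t := 2) (by omega : 0 < k) (by omega : 0 < 2) b hb
    (by simp [mul_comm]) hconn hT
  obtain ⟨A', hA', h1, h2⟩ := transport (n := k * 2) (by simp [mul_comm]) A hA
  exact ⟨A', hA', by rw [h1]; exact hA1, by rw [h2]; exact hA2⟩

/-! ### derandomised union bound -/

lemma avg_step {Y : Type} [Fintype Y] [DecidableEq Y] {k t : ℕ} (hk : k ≤ Fintype.card Y)
    (F : Finset (Finset Y)) (hF : ∀ T ∈ F, T.card = t) :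
    ∃ B : Finset Y, B.card = k ∧
      ((F.filter fun T => ¬ Disjoint B T).card : ℝ) ≤
        F.card * (1 - (Nat.choose (Fintype.card Y - t) k : ℝ) / Nat.choose (Fintype.card Y) k) := by
  classical
  set N := Fintype.card Y with hN
  have hpos : (0 : ℝ) < Nat.choose N k := by exact_mod_cast Nat.choose_pos hk
  have hdouble : ∑ B ∈ powersetCard k (univ : Finset Y), ((F.filter fun T => Disjoint B T).card : ℝ)
      = F.card * (Nat.choose (N - t) k : ℝ) := by
    have : ∀ B ∈ powersetCard k (univ : Finset Y), ((F.filter fun T => Disjoint B T).card : ℝ)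
        = ∑ T ∈ F, if Disjoint B T then (1 : ℝ) else 0 := by
      intro B _
      rw [Finset.sum_ite, Finset.sum_const, Finset.sum_const_zero]; simp
    rw [Finset.sum_congr rfl this, Finset.sum_comm]
    have h2 : ∀ T ∈ F, ∑ B ∈ powersetCard k (univ : Finset Y), (if Disjoint B T then (1 : ℝ) else 0)
        = (Nat.choose (N - t) k : ℝ) := by
      intro T hT
      rw [← Finset.sum_filter, Finset.sum_const, nsmul_eq_mul, mul_one]
      congr 1
      have : (powersetCard k (univ : Finset Y)).filter (fun B => Disjoint B T)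
          = powersetCard k (univ \ T) := by
        ext B
        simp only [mem_filter, mem_powersetCard, subset_univ, true_and]
        constructor
        · rintro ⟨h1, h2⟩
          refine ⟨fun x hx => mem_sdiff.2 ⟨mem_univ _, fun hxT => ?_⟩, h1⟩
          exact (Finset.disjoint_left.1 h2 hx) hxT
        · rintro ⟨h1, h2⟩
          refine ⟨h2, Finset.disjoint_left.2 fun x hx hxT => ?_⟩
          exact (mem_sdiff.1 (h1 hx)).2 hxT
      rw [this, card_powersetCard, card_sdiff_of_subset (subset_univ _), card_univ, hF T hT]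
    rw [Finset.sum_congr rfl h2]; simp
  have hcardP : ((powersetCard k (univ : Finset Y)).card : ℝ) = Nat.choose N k := by
    rw [card_powersetCard, card_univ]
  have hne : (powersetCard k (univ : Finset Y)).Nonempty := by
    rw [← card_pos, card_powersetCard, card_univ]; exact Nat.choose_pos hk
  obtain ⟨B, hB, hBle⟩ := Finset.exists_le_of_sum_le (s := powersetCard k (univ : Finset Y))
    (f := fun _ => (F.card : ℝ) * ((Nat.choose (N - t) k : ℝ) / Nat.choose N k))
    (g := fun B => ((F.filter fun T => Disjoint B T).card : ℝ)) hne (by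
      rw [hdouble, Finset.sum_const, nsmul_eq_mul, hcardP]
      apply le_of_eq
      field_simp)
  refine ⟨B, (mem_powersetCard.1 hB).2, ?_⟩
  have hsplit : ((F.filter fun T => Disjoint B T).card : ℝ)
      + ((F.filter fun T => ¬ Disjoint B T).card : ℝ) = F.card := by
    exact_mod_cast Finset.card_filter_add_card_filter_not (s := F) (fun T => Disjoint B T)
  have := hBle
  nlinarith

lemma cover_exists {Y : Type} [Fintype Y] [DecidableEq Y] {k t : ℕ} (hk : k ≤ Fintype.card Y)
    (F : Finset (Finset Y)) (hF : ∀ T ∈ F, T.card = t) (L : ℕ) :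
    ∃ B : ℕ → Finset Y, (∀ c, (B c).card = k) ∧
      ((F.filter fun T => ∀ c < L, ¬ Disjoint (B c) T).card : ℝ) ≤
        F.card * (1 - (Nat.choose (Fintype.card Y - t) k : ℝ) / Nat.choose (Fintype.card Y) k) ^ L
    := by
  classical
  have hpos : (0 : ℝ) < Nat.choose (Fintype.card Y) k := by exact_mod_cast Nat.choose_pos hk
  have hq : 0 ≤ 1 - (Nat.choose (Fintype.card Y - t) k : ℝ) / Nat.choose (Fintype.card Y) k := by
    rw [sub_nonneg, div_le_one hpos]
    exact_mod_cast Nat.choose_le_choose k (Nat.sub_le _ _)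
  induction L with
  | zero =>
    obtain ⟨B, hB, _⟩ := avg_step hk F hF
    refine ⟨fun _ => B, fun _ => hB, ?_⟩
    simp
  | succ L ih =>
    obtain ⟨B, hB, hBle⟩ := ih
    obtain ⟨B', hB', hBle'⟩ := avg_step hk (F.filter fun T => ∀ c < L, ¬ Disjoint (B c) T)
      (fun T hT => hF T (mem_filter.1 hT).1)
    refine ⟨fun c => if c = L then B' else B c, fun c => ?_, ?_⟩
    · by_cases h : c = L <;> simp [h, hB, hB']
    · have heq : (F.filter fun T => ∀ c < L + 1, ¬ Disjoint (if c = L then B' else B c) T)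
          = (F.filter fun T => ∀ c < L, ¬ Disjoint (B c) T).filter fun T => ¬ Disjoint B' T := by
        ext T
        simp only [mem_filter]
        constructor
        · rintro ⟨h1, h2⟩
          refine ⟨⟨h1, fun c hc => ?_⟩, ?_⟩
          · have := h2 c (by omega)
            rwa [if_neg (by omega)] at this
          · have := h2 L (by omega)
            rwa [if_pos rfl] at this
        · rintro ⟨⟨h1, h2⟩, h3⟩
          refine ⟨h1, fun c hc => ?_⟩
          by_cases h : c = L
          · rw [if_pos h]; exact h3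
          · rw [if_neg h]; exact h2 c (by omega)
      rw [heq, pow_succ, ← mul_assoc]
      exact hBle'.trans (mul_le_mul_of_nonneg_right hBle hq)

theorem lower_core (m k t : ℕ) (hm : 1 ≤ m) (hk : 3 ≤ k) (ht : t ≤ k * m)
    (hlt : (Nat.choose (k * m) t : ℝ) *
      (1 - (Nat.choose (k * m - t) k : ℝ) / Nat.choose (k * m) k) ^ (k - 2) < 1) :
    ∃ A : Fin (k * m) → Fin (k * m) → Prop, InClass (k - 1) (k * m) A ∧ gamma A ≤ m ∧
      t + 1 ≤ gamma (rev A) := by
  classical
  haveI : NeZero m := ⟨by omega⟩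
  have hcard : Fintype.card (Fin m × Fin k) = k * m := by simp [mul_comm]
  have hkm : k ≤ Fintype.card (Fin m × Fin k) := by rw [hcard]; nlinarith
  obtain ⟨B, hB, hBle⟩ := cover_exists hkm (powersetCard t (univ : Finset (Fin m × Fin k)))
    (fun T hT => (mem_powersetCard.1 hT).2) (k - 2)
  rw [hcard, card_powersetCard, card_univ, hcard] at hBle
  have hzero : ((powersetCard t (univ : Finset (Fin m × Fin k))).filter
      fun T => ∀ c < k - 2, ¬ Disjoint (B c) T).card = 0 := by
    have : (((powersetCard t (univ : Finset (Fin m × Fin k))).filter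
      fun T => ∀ c < k - 2, ¬ Disjoint (B c) T).card : ℝ) < 1 := lt_of_le_of_lt hBle hlt
    have h2 : ((powersetCard t (univ : Finset (Fin m × Fin k))).filter
      fun T => ∀ c < k - 2, ¬ Disjoint (B c) T).card < 1 := by exact_mod_cast this
    omega
  have hmiss : ∀ T : Finset (Fin m × Fin k), T.card ≤ t → ∃ c < k - 2, Disjoint (B c) T := by
    intro T hT
    obtain ⟨T', hTT', hT'⟩ := Finset.exists_superset_card_eq hT (by rw [hcard]; exact ht)
    by_contra hcon
    push Not at hcon
    have : T' ∈ ((powersetCard t (univ : Finset (Fin m × Fin k))).filter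
      fun T => ∀ c < k - 2, ¬ Disjoint (B c) T) := by
      rw [mem_filter, mem_powersetCard]
      refine ⟨⟨subset_univ _, hT'⟩, fun c hc hd => ?_⟩
      exact hcon c hc (Finset.disjoint_of_subset_right hTT' hd)
    rw [Finset.card_eq_zero] at hzero
    rw [hzero] at this
    simp at this
  obtain ⟨b, hb, hb0, hb1, hbc, hconn⟩ := build m k (by omega) B hB
  obtain ⟨A, hA, hA1, hA2⟩ := construct (t := t) (by omega : 0 < k) (by omega : 0 < m) b hb
    hcard hconn (by
      intro T hT
      obtain ⟨c, hc, hd⟩ := hmiss T hT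
      refine ⟨⟨c + 2, by omega⟩, 0, fun y hy h => ?_⟩
      rw [hbc c (by omega)] at h
      exact (Finset.disjoint_left.1 hd h) hy)
  obtain ⟨A', hA', h1, h2⟩ := transport (n := k * m) hcard A hA
  exact ⟨A', hA', by rw [h1]; exact hA1, by rw [h2]; exact hA2⟩

end Pool.Agent.H682R2.Dom
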