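import Mathlib
import Pool.Agent.H682R2.DomD

open Finset

namespace Pool.Agent.H682R2.Dom

lemma choose_ratio (N k t : ℕ) (h : t + k < N) :
    (1 - (t : ℝ) / (N - k : ℕ)) ^ k ≤ (Nat.choose (N - t) k : ℝ) / Nat.choose N k := by
  have h1 : (Nat.choose (N - t) k : ℝ) / Nat.choose N k
      = ((N - t).descFactorial k : ℝ) / N.descFactorial k := by
    rw [Nat.descFactorial_eq_factorial_mul_choose, Nat.descFactorial_eq_factorial_mul_choose]
    push_cast
    rw [mul_div_mul_left]
    exact_mod_cast Nat.factorial_ne_zero k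
  rw [h1, Nat.descFactorial_eq_prod_range, Nat.descFactorial_eq_prod_range]
  push_cast
  rw [← Finset.prod_div_distrib, ← Finset.card_range k, ← Finset.prod_const]
  simp only [Finset.card_range]
  apply Finset.prod_le_prod
  · intro i _
    rw [sub_nonneg, div_le_one]
    · have : t ≤ N - k := by omega
      exact_mod_cast this
    · have : 0 < N - k := by omega
      exact_mod_cast this
  · intro i hi
    rw [mem_range] at hi
    have e1 : ((N - t - i : ℕ) : ℝ) = (N : ℝ) - t - i := by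
      rw [Nat.cast_sub (by omega), Nat.cast_sub (by omega)]
    have e2 : ((N - i : ℕ) : ℝ) = (N : ℝ) - i := by
      rw [Nat.cast_sub (by omega)]
    have e3 : ((N - k : ℕ) : ℝ) = (N : ℝ) - k := by
      rw [Nat.cast_sub (by omega)]
    rw [e1, e2, e3]
    have hi' : (i : ℝ) < k := by exact_mod_cast hi
    have hN : (t : ℝ) + k < N := by exact_mod_cast h
    have ht : (0 : ℝ) ≤ t := by positivity
    have hpos : (0 : ℝ) < (N : ℝ) - k := by linarith
    have hpos2 : (0 : ℝ) < (N : ℝ) - i := by linarith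
    have : ((N : ℝ) - t - i) / (N - i) = 1 - t / (N - i) := by
      field_simp
      ring
    rw [this]
    have : (t : ℝ) / (N - i) ≤ t / (N - k) := by
      apply div_le_div_of_nonneg_left ht hpos (by linarith)
    linarith

lemma one_sub_pow_ge (k : ℕ) (u : ℝ) (hu : 0 ≤ u) (hk : u ^ 2 ≤ k - u) (hku : u < k) :
    Real.exp (-(u + 1)) ≤ (1 - u / k) ^ k := by
  have hk0 : (0 : ℝ) < k := lt_of_le_of_lt hu hku
  have hpos : 0 < 1 - u / k := by
    rw [sub_pos, div_lt_one hk0]; exact hku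
  -- 1/(1-u/k) = 1 + u/(k-u)
  have h1 : (1 - u / k)⁻¹ = 1 + u / (k - u) := by
    have h : (k : ℝ) - u ≠ 0 := by linarith
    have h' : (k : ℝ) ≠ 0 := hk0.ne'
    have e : 1 - u / k = (k - u) / k := by field_simp
    rw [e, inv_div]
    field_simp
    ring
  have h2 : (1 - u / k)⁻¹ ≤ Real.exp (u / (k - u)) := by
    rw [h1]
    have := Real.add_one_le_exp (u / (k - u))
    linarith
  have h3 : Real.exp (-(u / (k - u))) ≤ 1 - u / k := by
    rw [Real.exp_neg]
    exact inv_le_of_inv_le₀ hpos h2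
  calc Real.exp (-(u + 1)) ≤ Real.exp (-(u / (k - u)) * k) := by
        apply Real.exp_le_exp.2
        have hku' : (0 : ℝ) < k - u := by linarith
        have : u / (k - u) * k ≤ u + 1 := by
          rw [div_mul_eq_mul_div, div_le_iff₀ hku']
          nlinarith
        linarith
    _ = (Real.exp (-(u / (k - u)))) ^ k := by
        rw [← Real.exp_nat_mul]; ring_nf
    _ ≤ (1 - u / k) ^ k := pow_le_pow_left₀ (Real.exp_pos _).le h3 k

lemma exp_ge_cube (L : ℝ) (hL : 10 ≤ L) : L ^ 3 ≤ Real.exp L := by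
  have h := Real.pow_div_factorial_le_exp L (by linarith) 6
  have h2 : L ^ 3 ≤ L ^ 6 / (Nat.factorial 6 : ℕ) := by
    rw [le_div_iff₀ (by positivity)]
    have h5 : ((Nat.factorial 6 : ℕ) : ℝ) = 720 := by norm_num [Nat.factorial]
    rw [h5]
    have e : L ^ 6 = L ^ 3 * L ^ 3 := by ring
    have h3 : (720 : ℝ) ≤ L ^ 3 := by
      have : (10 : ℝ) ^ 3 ≤ L ^ 3 := pow_le_pow_left₀ (by norm_num) hL 3
      linarith
    rw [e]
    exact mul_le_mul_of_nonneg_left h3 (by positivity)
  exact h2.trans h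

lemma cube_aux (L : ℝ) (hL : 10 ≤ L) : L + 2 ≤ L ^ 3 := by
  have h : L ^ 2 ≥ 100 := by nlinarith
  have e : L ^ 3 = L * L ^ 2 := by ring
  rw [e]; nlinarith

lemma cube_aux2 (L : ℝ) (hL : 10 ≤ L) : L * (L + 2) ≤ 1.2 * L ^ 2 := by nlinarith

/-- the numerical heart of the lower bound -/
theorem numerics (k : ℕ) (hk : 1 ≤ k) (L τ : ℝ) (hL : L = Real.log k)
    (hτ : τ = L - 3 * Real.log L - 4) (hτ0 : 0 ≤ τ) (hL10 : 10 ≤ L) :
    ∃ m t : ℕ, 1 ≤ m ∧ 3 ≤ k ∧ t ≤ k * m ∧
      (Nat.choose (k * m) t : ℝ) *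
        (1 - (Nat.choose (k * m - t) k : ℝ) / Nat.choose (k * m) k) ^ (k - 2) < 1 ∧
      τ * m ≤ t + 1 := by
  have hk0 : (0 : ℝ) < k := by exact_mod_cast hk
  have hkL : (k : ℝ) = Real.exp L := by rw [hL, Real.exp_log hk0]
  have hcube : L ^ 3 ≤ k := by rw [hkL]; exact exp_ge_cube L hL10
  have hlogL : 0 ≤ Real.log L := Real.log_nonneg (by linarith)
  have hτL : τ ≤ L - 4 := by rw [hτ]; linarith
  have hk1000 : (1000 : ℝ) ≤ k := by
    have : (10 : ℝ) ^ 3 ≤ L ^ 3 := pow_le_pow_left₀ (by norm_num) hL10 3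
    linarith
  have hk3 : 1000 ≤ k := by exact_mod_cast hk1000
  -- the parameters
  obtain ⟨m', hm'⟩ : ∃ m' : ℕ, m' = ⌈L⌉₊ := ⟨_, rfl⟩
  have hm1 : L ≤ m' := by rw [hm']; exact Nat.le_ceil L
  have hm2 : (m' : ℝ) < L + 1 := by rw [hm']; exact Nat.ceil_lt_add_one (by linarith)
  set m := m' + 1 with hm
  have hmR : (m : ℝ) = m' + 1 := by rw [hm]; push_cast; ring
  have hmτ : 0 ≤ τ * m := by positivity
  obtain ⟨t, ht⟩ : ∃ t : ℕ, t = ⌊τ * m⌋₊ := ⟨_, rfl⟩
  have ht1 : (t : ℝ) ≤ τ * m := by rw [ht]; exact Nat.floor_le hmτ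
  have ht2 : τ * m < t + 1 := by rw [ht]; exact Nat.lt_floor_add_one _
  -- t ≤ (τ+1) m'
  have ht3 : (t : ℝ) ≤ (τ + 1) * m' := by
    have : τ * m = τ * m' + τ := by rw [hmR]; ring
    nlinarith
  have hu2 : (τ + 1) ^ 2 ≤ k - (τ + 1) := by
    have h1 : (τ + 1) ^ 2 + (τ + 1) ≤ L ^ 2 := by nlinarith
    have h2 : L ^ 2 ≤ L ^ 3 := by nlinarith
    linarith
  have hu3 : τ + 1 < k := by nlinarith
  have htkm : (t : ℝ) + k < (k * m : ℕ) := by
    push_cast
    rw [hmR]
    have : (τ + 1) * m' < k * m' := by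
      apply mul_lt_mul_of_pos_right hu3
      linarith
    nlinarith
  have htkm' : t + k < k * m := by exact_mod_cast htkm
  refine ⟨m, t, by omega, by omega, by omega, ?_, ht2.le⟩
  -- the probability
  set q := (Nat.choose (k * m - t) k : ℝ) / Nat.choose (k * m) k with hq
  have hq1 : Real.exp (-(τ + 2)) ≤ q := by
    have h1 := choose_ratio (k * m) k t htkm'
    have h2 := one_sub_pow_ge k (τ + 1) (by linarith) hu2 hu3
    have e : -(τ + 2) = -(τ + 1 + 1) := by ring
    rw [e]
    refine h2.trans (le_trans ?_ h1)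
    have hsub : ((k * m - k : ℕ) : ℝ) = k * m' := by
      have : k * m - k = k * m' := by rw [hm, Nat.mul_succ]; omega
      rw [this]; push_cast; ring
    rw [hsub]
    have hm'0 : (0 : ℝ) < m' := by linarith
    have h3 : (t : ℝ) / (k * m') ≤ (τ + 1) / k := by
      rw [div_le_div_iff₀ (by positivity) hk0]
      nlinarith
    apply pow_le_pow_left₀
    · rw [sub_nonneg, div_le_one hk0]; linarith
    · linarith
  have hq2 : 7 * L ^ 3 ≤ q * k := by
    have e1 : Real.exp (-(τ + 2)) * k = Real.exp 2 * L ^ 3 := by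
      rw [hkL, ← Real.exp_add, hτ]
      have : -(L - 3 * Real.log L - 4 + 2) + L = 2 + 3 * Real.log L := by ring
      rw [this, Real.exp_add]
      congr 1
      have h3 : 3 * Real.log L = Real.log (L ^ 3) := by rw [Real.log_pow]; norm_num
      rw [h3, Real.exp_log (by positivity)]
    have e2 : (7 : ℝ) ≤ Real.exp 2 := by
      have h : (2.7 : ℝ) < Real.exp 1 := by linarith [Real.exp_one_gt_d9]
      have h2 : Real.exp 2 = Real.exp 1 * Real.exp 1 := by rw [← Real.exp_add]; norm_num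
      rw [h2]; nlinarith
    calc 7 * L ^ 3 ≤ Real.exp 2 * L ^ 3 := mul_le_mul_of_nonneg_right e2 (by positivity)
      _ = Real.exp (-(τ + 2)) * k := e1.symm
      _ ≤ q * k := mul_le_mul_of_nonneg_right hq1 hk0.le
  have hchoose0 : (0 : ℝ) < Nat.choose (k * m) k := by
    exact_mod_cast Nat.choose_pos (by omega)
  have hq3 : 0 ≤ 1 - q := by
    rw [sub_nonneg, hq, div_le_one hchoose0]
    exact_mod_cast Nat.choose_le_choose k (Nat.sub_le _ _)
  have hpow : (1 - q) ^ (k - 2) ≤ Real.exp (-(3 * L ^ 3)) := by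
    calc (1 - q) ^ (k - 2) ≤ (Real.exp (-q)) ^ (k - 2) := by
          apply pow_le_pow_left₀ hq3
          have := Real.add_one_le_exp (-q)
          linarith
      _ = Real.exp (-(q * (k - 2 : ℕ))) := by
          rw [← Real.exp_nat_mul]; ring_nf
      _ ≤ Real.exp (-(3 * L ^ 3)) := by
          apply Real.exp_le_exp.2
          have : ((k - 2 : ℕ) : ℝ) = k - 2 := by rw [Nat.cast_sub (by omega)]; norm_num
          rw [this]
          have hqpos : 0 ≤ q := le_trans (Real.exp_pos _).le hq1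
          have : q * (k - 2) ≥ q * (k * (6 / 7)) := by
            apply mul_le_mul_of_nonneg_left _ hqpos
            linarith
          nlinarith
  have hch : (Nat.choose (k * m) t : ℝ) ≤ Real.exp (2.5 * L ^ 3) := by
    have h1 : (Nat.choose (k * m) t : ℝ) ≤ ((k * m : ℕ) : ℝ) ^ t := by
      have := Nat.choose_le_pow (k * m) t
      exact_mod_cast this
    refine h1.trans ?_
    have h2 : ((k * m : ℕ) : ℝ) ≤ Real.exp (2 * L) := by
      push_cast
      have : Real.exp (2 * L) = Real.exp L * Real.exp L := by rw [← Real.exp_add]; ring_nf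
      rw [this, ← hkL]
      apply mul_le_mul_of_nonneg_left _ hk0.le
      rw [hmR]
      have h100 : L + 2 ≤ L ^ 3 := cube_aux L hL10
      linarith
    calc ((k * m : ℕ) : ℝ) ^ t ≤ (Real.exp (2 * L)) ^ t :=
          pow_le_pow_left₀ (by positivity) h2 t
      _ = Real.exp (t * (2 * L)) := by rw [← Real.exp_nat_mul]
      _ ≤ Real.exp (2.5 * L ^ 3) := by
          apply Real.exp_le_exp.2
          have h4 : (t : ℝ) ≤ L * (L + 2) := by
            refine ht1.trans ?_
            rw [hmR]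
            apply mul_le_mul (by linarith) (by linarith) (by linarith) (by linarith)
          have h5 : L * (L + 2) ≤ 1.2 * L ^ 2 := cube_aux2 L hL10
          have h6 : (t : ℝ) * (2 * L) ≤ (1.2 * L ^ 2) * (2 * L) :=
            mul_le_mul_of_nonneg_right (h4.trans h5) (by linarith)
          have h7 : 0 ≤ L ^ 3 := by positivity
          have h8 : (1.2 * L ^ 2) * (2 * L) = 2.4 * L ^ 3 := by ring
          rw [h8] at h6
          linarith
  calc (Nat.choose (k * m) t : ℝ) * (1 - q) ^ (k - 2)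
      ≤ Real.exp (2.5 * L ^ 3) * Real.exp (-(3 * L ^ 3)) :=
        mul_le_mul hch hpow (pow_nonneg hq3 _) (Real.exp_pos _).le
    _ = Real.exp (-(0.5 * L ^ 3)) := by rw [← Real.exp_add]; ring_nf
    _ < 1 := by
        rw [Real.exp_lt_one_iff]
        have : 0 < L ^ 3 := by positivity
        linarith

end Pool.Agent.H682R2.Dom
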