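import Mathlib
import Pool.Agent.Helper707.Nil
import Pool.Agent.Helper707.Idem

/-!
Nilpotency from the standard identity: if `t z - z t = P(z)` in an algebra over a field of
characteristic zero which satisfies the standard identity `s_n` (on elements without constant
term in `z, t`), then `P(z)` is nilpotent, with an exponent depending only on `n` and `P`.
-/

namespace Pool.Agent.H682R2.StdNil

open Polynomial

universe u

/-- The standard polynomial `s_n` evaluated at `y_0, …, y_{n-1}`. -/
def std {B : Type*} [Ring B] {n : ℕ} (y : Fin n → B) : B :=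
  ∑ σ : Equiv.Perm (Fin n), Equiv.Perm.sign σ • (List.ofFn fun i => y (σ i)).prod

theorem units_smul_map {B C : Type*} [Ring B] [Ring C] (φ : B →+* C) (e : ℤˣ) (b : B) :
    φ (e • b) = e • φ b := by
  rcases Int.units_eq_one_or e with h | h <;> simp [h]

theorem std_map {B C : Type*} [Ring B] [Ring C] (φ : B →+* C) {n : ℕ} (y : Fin n → B) :
    φ (std y) = std fun i => φ (y i) := by
  unfold std
  rw [map_sum]
  refine Finset.sum_congr rfl fun σ _ => ?_
  rw [units_smul_map, map_list_prod, List.map_ofFn]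
  rfl

variable {F : Type u} [Field F]

section ev

variable {B : Type*} [Ring B] [Algebra F B]

/-- `∑ c_k(z) t^k` -/
noncomputable def ev (z t : B) (c : F[X][X]) : B := c.sum fun k a => aeval z a * t ^ k

theorem ev_add (z t : B) (c d : F[X][X]) : ev z t (c + d) = ev z t c + ev z t d := by
  unfold ev
  rw [Polynomial.sum_add_index]
  · intro i; simp
  · intro i a b; rw [map_add, add_mul]

theorem ev_monomial (z t : B) (k : ℕ) (a : F[X]) :
    ev z t (monomial k a) = aeval z a * t ^ k := by
  unfold ev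
  rw [Polynomial.sum_monomial_index]
  simp

theorem ev_zero (z t : B) : ev z t (0 : F[X][X]) = 0 := by
  unfold ev; simp

theorem ev_C_mul (z t : B) (a : F[X]) (c : F[X][X]) :
    ev z t (C a * c) = aeval z a * ev z t c := by
  induction c using Polynomial.induction_on' with
  | add p q hp hq => rw [mul_add, ev_add, ev_add, hp, hq, mul_add]
  | monomial k b =>
    rw [C_mul_monomial, ev_monomial, ev_monomial, map_mul, mul_assoc]

theorem aeval_mul_self (z : B) (b : F[X]) : aeval z b * z = z * aeval z b := by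
  have h1 : aeval z (b * X) = aeval z b * z := by rw [map_mul, aeval_X]
  have h2 : aeval z (X * b) = z * aeval z b := by rw [map_mul, aeval_X]
  rw [← h1, mul_comm, h2]

theorem comm_aeval {P : F[X]} {z t : B} (h : t * z - z * t = aeval z P) (a : F[X]) :
    t * aeval z a = aeval z a * t + aeval z (P * derivative a) := by
  have hX : t * z = z * t + aeval z P := by rw [← h]; abel
  induction a using Polynomial.induction_on with
  | C r => simp [Algebra.commutes]
  | add p q hp hq =>
    rw [map_add, mul_add, hp, hq, derivative_add, mul_add, map_add]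
    noncomm_ring
  | monomial n r ih =>
    set b := C r * X ^ n with hb
    have e : C r * X ^ (n + 1) = b * X := by rw [hb, pow_succ, mul_assoc]
    have hd : derivative (b * X) = derivative b * X + b := by
      rw [derivative_mul, derivative_X, mul_one]
    rw [e, map_mul, aeval_X, ← mul_assoc, ih, add_mul, mul_assoc (aeval z b) t z, hX, mul_add,
      hd, mul_add, map_add]
    have h1 : aeval z (P * (derivative b * X)) = aeval z (P * derivative b) * z := by
      rw [← mul_assoc, map_mul _ _ X, aeval_X]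
    have h2 : aeval z (P * b) = aeval z b * aeval z P := by
      rw [mul_comm, map_mul]
    rw [h1, h2, mul_assoc]
    abel

end ev

/-- the normal form: the action of a noncommutative polynomial in `z, t` -/
theorem nf (P : F[X]) (q : FreeAlgebra F (Fin 2)) : ∀ c : F[X][X], ∃ c' : F[X][X],
    ∀ (B : Type u) [Ring B] [Algebra F B] (z t : B), t * z - z * t = aeval z P →
      FreeAlgebra.lift F ![z, t] q * ev z t c = ev z t c' := by
  induction q using FreeAlgebra.induction with
  | grade0 r =>
    intro c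
    refine ⟨C (C r) * c, fun B _ _ z t _ => ?_⟩
    rw [ev_C_mul, AlgHom.commutes, aeval_C]
  | grade1 i =>
    fin_cases i
    · intro c
      refine ⟨C X * c, fun B _ _ z t _ => ?_⟩
      rw [ev_C_mul, FreeAlgebra.lift_ι_apply, aeval_X]
      rfl
    · intro c
      induction c using Polynomial.induction_on' with
      | add p q hp hq =>
        obtain ⟨p', hp⟩ := hp
        obtain ⟨q', hq⟩ := hq
        refine ⟨p' + q', fun B _ _ z t h => ?_⟩
        rw [ev_add, mul_add, hp B z t h, hq B z t h, ev_add]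
      | monomial k a =>
        refine ⟨monomial (k + 1) a + monomial k (P * derivative a), fun B _ _ z t h => ?_⟩
        rw [ev_add, ev_monomial, ev_monomial, ev_monomial, FreeAlgebra.lift_ι_apply]
        change t * _ = _
        rw [← mul_assoc, comm_aeval h, add_mul, pow_succ', mul_assoc]
  | mul a b ha hb =>
    intro c
    obtain ⟨c1, h1⟩ := hb c
    obtain ⟨c2, h2⟩ := ha c1
    refine ⟨c2, fun B _ _ z t h => ?_⟩
    rw [map_mul, mul_assoc, h1 B z t h, h2 B z t h]
  | add a b ha hb =>
    intro c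
    obtain ⟨c1, h1⟩ := ha c
    obtain ⟨c2, h2⟩ := hb c
    refine ⟨c1 + c2, fun B _ _ z t h => ?_⟩
    rw [map_add, add_mul, h1 B z t h, h2 B z t h, ev_add]

theorem nf' (P : F[X]) (q : FreeAlgebra F (Fin 2)) : ∃ c : F[X][X],
    ∀ (B : Type u) [Ring B] [Algebra F B] (z t : B), t * z - z * t = aeval z P →
      FreeAlgebra.lift F ![z, t] q = ev z t c := by
  obtain ⟨c, hc⟩ := nf P q (monomial 0 1)
  refine ⟨c, fun B _ _ z t h => ?_⟩
  have := hc B z t h
  rwa [ev_monomial, map_one, pow_zero, mul_one, mul_one] at this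

section top

variable {B : Type*} [Ring B] [Algebra F B] [CharZero F]

open Pool.Agent.Helper707.Nil in
theorem top_coeff {P : F[X]} {z t : B} (h : t * z - z * t = aeval z P) {c : F[X][X]}
    (hc : ev z t c = 0) : aeval z (c.leadingCoeff * P ^ c.natDegree) = 0 := by
  set p : B := aeval z P with hp
  set d := c.natDegree with hd
  have ht : D (F := F) z t = p := by rw [D_apply, h]
  have hz : ∀ a : F[X], D (F := F) z (aeval z a) = 0 := by
    intro a
    rw [D_apply, aeval_mul_self, sub_self]
  have key : ((D (F := F) z) ^ d) (ev z t c) = aeval z c.leadingCoeff * ((d.factorial : ℕ) • p ^ d) := by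
    unfold ev
    rw [Polynomial.sum_over_range]
    · rw [map_sum, Finset.sum_range_succ]
      rw [Finset.sum_eq_zero, zero_add, D_pow_mul_left z _ (hz _), (D_pow_pow z t p ht (hz P) d).1]
      · rfl
      · intro k hk
        rw [Finset.mem_range] at hk
        rw [D_pow_mul_left z _ (hz _), (D_pow_pow z t p ht (hz P) k).2 _ hk, mul_zero]
    · intro n; simp
  rw [hc, map_zero] at key
  have h2 : (d.factorial : F) • (aeval z (c.leadingCoeff * P ^ d)) = 0 := by
    rw [Nat.cast_smul_eq_nsmul, map_mul, map_pow, ← hp, ← mul_smul_comm]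
    exact key.symm
  rcases smul_eq_zero.1 h2 with h3 | h3
  · exact absurd (by exact_mod_cast h3) d.factorial_ne_zero
  · exact h3

omit [CharZero F] in
theorem exists_mul (q g : F[X]) (hq : ¬ IsUnit q) (hg : g ≠ 0) :
    ∃ (m : ℕ) (r : F[X]), g = q ^ m * r ∧ ¬ q ∣ r := by
  obtain ⟨r, h1, h2⟩ := (FiniteMultiplicity.of_not_isUnit hq hg).exists_eq_pow_mul_and_not_dvd
  exact ⟨_, r, h1, h2⟩

theorem prime_dvd {g P q : F[X]} (hg : g ≠ 0) (h : g ∣ P * derivative g) (hq : Irreducible q)
    (hqg : q ∣ g) : q ∣ P := by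
  have hq' : Prime q := hq.prime
  obtain ⟨m, r, e, hr⟩ := exists_mul q g hq.not_isUnit hg
  have hm : m ≠ 0 := by
    rintro rfl
    rw [pow_zero, one_mul] at e
    exact hr (e ▸ hqg)
  obtain ⟨k, rfl⟩ := Nat.exists_eq_succ_of_ne_zero hm
  obtain ⟨s, hs⟩ := h
  have hqk : q ^ k ≠ 0 := pow_ne_zero _ hq.ne_zero
  have h1 : q ^ k * (P * ((k + 1 : ℕ) * derivative q * r + q * derivative r))
      = q ^ k * (q * (r * s)) := by
    have h2 : derivative g = q ^ k * ((k + 1 : ℕ) * derivative q * r + q * derivative r) := by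
      rw [e, derivative_mul, derivative_pow]
      simp only [Nat.succ_eq_add_one, Nat.add_sub_cancel, map_natCast]
      ring
    calc q ^ k * (P * ((k + 1 : ℕ) * derivative q * r + q * derivative r))
        = P * derivative g := by rw [h2]; ring
      _ = g * s := hs
      _ = _ := by rw [e, Nat.succ_eq_add_one, pow_succ]; ring
  have h3 := mul_left_cancel₀ hqk h1
  have h4 : q ∣ P * ((k + 1 : ℕ) * derivative q * r) := by
    have : P * ((k + 1 : ℕ) * derivative q * r) = q * (r * s - P * derivative r) := by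
      linear_combination h3
    rw [this]
    exact dvd_mul_right _ _
  rcases hq'.dvd_or_dvd h4 with h5 | h5
  · exact h5
  · exfalso
    rcases hq'.dvd_or_dvd h5 with h6 | h6
    · rcases hq'.dvd_or_dvd h6 with h7 | h7
      · apply hq.not_isUnit
        apply isUnit_of_dvd_unit h7
        rw [show ((k + 1 : ℕ) : F[X]) = C ((k + 1 : ℕ) : F) by simp]
        rw [isUnit_C, isUnit_iff_ne_zero]
        exact_mod_cast Nat.succ_ne_zero k
      · have hd : derivative q ≠ 0 := by
          intro h0
          have := derivative_eq_zero.1 h0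
          obtain ⟨a, ha⟩ := natDegree_eq_zero.1 this
          apply hq.not_isUnit
          rw [← ha, isUnit_C, isUnit_iff_ne_zero]
          rintro rfl
          exact hq.ne_zero (by rw [← ha, C_0])
        have hlt := degree_derivative_lt hq.ne_zero
        exact absurd (degree_le_of_dvd h7 hd) (not_le.2 hlt)
    · exact hr h6

omit [CharZero F] in
theorem dvd_pow_natDegree {P : F[X]} (n : ℕ) : ∀ g : F[X], g ≠ 0 → g.natDegree ≤ n →
    (∀ q, Irreducible q → q ∣ g → q ∣ P) → g ∣ P ^ n := by
  induction n with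
  | zero =>
    intro g hg hn _
    have h0 : g.natDegree = 0 := by omega
    obtain ⟨a, ha⟩ := natDegree_eq_zero.1 h0
    apply IsUnit.dvd
    rw [← ha, isUnit_C, isUnit_iff_ne_zero]
    rintro rfl
    exact hg (by rw [← ha, C_0])
  | succ n ih =>
    intro g hg hn h
    by_cases hu : IsUnit g
    · exact hu.dvd
    · obtain ⟨q, hq, r, rfl⟩ := WfDvdMonoid.exists_irreducible_factor hu hg
      have hr : r ≠ 0 := right_ne_zero_of_mul hg
      have hqd : 0 < q.natDegree := hq.natDegree_pos
      rw [natDegree_mul hq.ne_zero hr] at hn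
      have h1 := ih r hr (by omega) fun q' hq' h' => h q' hq' (h'.mul_left q)
      rw [pow_succ']
      exact mul_dvd_mul (h q hq (dvd_mul_right _ _)) h1

theorem nil_of_poly {P b : F[X]} {z t : B} (h : t * z - z * t = aeval z P) (hb : b ≠ 0)
    (hz : aeval z b = 0) : (aeval z P) ^ b.natDegree = 0 := by
  let I : Ideal F[X] := RingHom.ker (aeval z : F[X] →ₐ[F] B)
  have hI : ∀ a, a ∈ I ↔ aeval z a = 0 := fun a => RingHom.mem_ker
  set g := Submodule.IsPrincipal.generator I with hg
  have hgen : ∀ a, a ∈ I ↔ g ∣ a := fun a => Submodule.IsPrincipal.mem_iff_generator_dvd I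
  have hgb : g ∣ b := (hgen b).1 ((hI b).2 hz)
  have hg0 : g ≠ 0 := by
    intro h0
    rw [h0, zero_dvd_iff] at hgb
    exact hb hgb
  have hgz : aeval z g = 0 := (hI g).1 ((hgen g).2 dvd_rfl)
  have h1 : g ∣ P * derivative g := by
    rw [← hgen, hI]
    have := comm_aeval h g
    rw [hgz, mul_zero, zero_mul, zero_add] at this
    exact this.symm
  have h2 : g ∣ P ^ b.natDegree :=
    dvd_pow_natDegree _ g hg0 (natDegree_le_of_dvd hgb hb) fun q hq hqg => prime_dvd hg0 h1 hq hqg
  rw [← map_pow]
  exact (hI _).1 ((hgen _).2 h2)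

end top

section model

/-- multiplication by `X` -/
noncomputable def Zo (F : Type u) [Field F] : Module.End F F[X] := Algebra.lmul F F[X] X

/-- the operator `P ∂` -/
noncomputable def To (P : F[X]) : Module.End F F[X] := Algebra.lmul F F[X] P * derivative

theorem rel_op (P : F[X]) : To P * Zo F - Zo F * To P = aeval (Zo F) P := by
  have h1 : aeval (Zo F) P = Algebra.lmul F F[X] P := by
    unfold Zo
    rw [aeval_algHom_apply, aeval_X_left_apply]
  rw [h1]
  ext1 k
  ext1
  simp only [To, Zo, LinearMap.comp_apply, LinearMap.sub_apply, Module.End.mul_apply,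
    Algebra.coe_lmul_eq_mul, LinearMap.mul_apply', derivative_mul, derivative_X, one_mul]
  ring

/-- symbol of an operator -/
def Sym (y : Module.End F F[X]) (s : ℕ) (lam : ℕ → F) : Prop :=
  ∀ k v, ∃ w, y (X ^ k * v) = C (lam k * v.coeff 0) * X ^ (k + s) + X ^ (k + s + 1) * w

theorem Sym.mul {y1 y2 : Module.End F F[X]} {s1 s2 : ℕ} {l1 l2 : ℕ → F} (h2 : Sym y2 s2 l2)
    (h1 : Sym y1 s1 l1) : Sym (y2 * y1) (s1 + s2) (fun k => l2 (k + s1) * l1 k) := by
  intro k v
  obtain ⟨w1, e1⟩ := h1 k v
  have e1' : y1 (X ^ k * v) = X ^ (k + s1) * (C (l1 k * v.coeff 0) + X * w1) := by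
    rw [e1]; ring
  obtain ⟨w2, e2⟩ := h2 (k + s1) (C (l1 k * v.coeff 0) + X * w1)
  refine ⟨w2, ?_⟩
  rw [Module.End.mul_apply, e1', e2]
  have : (C (l1 k * v.coeff 0) + X * w1).coeff 0 = l1 k * v.coeff 0 := by simp
  rw [this, mul_assoc (l2 _), add_assoc]

theorem Sym.one : Sym (1 : Module.End F F[X]) 0 (fun _ => 1) := by
  intro k v
  refine ⟨v.divX, ?_⟩
  have h := Polynomial.X_mul_divX_add v
  rw [Module.End.one_apply, one_mul, add_zero]
  conv_lhs => rw [← h]
  ring

theorem Sym.Z : Sym (Zo F) 1 (fun _ => 1) := by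
  intro k v
  refine ⟨v.divX, ?_⟩
  have h := Polynomial.X_mul_divX_add v
  unfold Zo
  rw [one_mul]
  simp only [Algebra.coe_lmul_eq_mul, LinearMap.mul_apply']
  conv_lhs => rw [← h]
  ring

theorem Sym.T {P Q : F[X]} (hP : P = X * Q) :
    Sym (To P) 0 (fun k => Q.coeff 0 * k) := by
  intro k v
  -- X Q (k X^(k-1) v + X^k v') = X^k (k Q v + X Q v')
  have e : (To P) (X ^ k * v) = X ^ k * ((k : F[X]) * Q * v + X * (Q * derivative v)) := by
    unfold To
    rw [Module.End.mul_apply, hP]
    simp only [Algebra.coe_lmul_eq_mul, LinearMap.mul_apply', derivative_mul, derivative_X_pow]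
    cases k with
    | zero => simp; ring
    | succ k =>
      simp only [Nat.add_sub_cancel, map_natCast]
      ring
  set u := (k : F[X]) * Q * v + X * (Q * derivative v) with hu
  refine ⟨u.divX, ?_⟩
  have h := Polynomial.X_mul_divX_add u
  have hc : u.coeff 0 = Q.coeff 0 * k * v.coeff 0 := by
    rw [hu]
    simp only [coeff_add, mul_coeff_zero, coeff_X_zero, zero_mul, add_zero]
    rw [show ((k : F[X])).coeff 0 = (k : F) by simp]
    ring
  rw [e, add_zero, ← hc]
  conv_lhs => rw [← h]
  ring

theorem Sym.pow {y : Module.End F F[X]} {l : ℕ → F} (h : Sym y 0 l) (n : ℕ) :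
    Sym (y ^ n) 0 (fun k => l k ^ n) := by
  induction n with
  | zero => simpa using Sym.one
  | succ n ih =>
    have := ih.mul h
    simpa [pow_succ] using this

/-- symbol of a product -/
def val (c : F) : List ℕ → ℕ → F
  | [], _ => 1
  | j :: js, k => (c * ((k + js.length : ℕ) : F)) ^ j * val c js k

theorem Sym.prod {P Q : F[X]} (hP : P = X * Q) (js : List ℕ) :
    Sym ((js.map fun j => Zo F * To P ^ j).prod) js.length (val (Q.coeff 0) js) := by
  induction js with
  | nil => simpa [val] using Sym.one (F := F)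
  | cons j js ih =>
    rw [List.map_cons, List.prod_cons]
    have h1 : Sym (Zo F * To P ^ j) 1 (fun k => (Q.coeff 0 * k) ^ j) := by
      have := (Sym.Z (F := F)).mul ((Sym.T hP).pow j)
      simpa using this
    have := h1.mul ih
    simpa [val] using this

theorem val_ofFn (c : F) {n : ℕ} (f : Fin n → ℕ) (k : ℕ) :
    val c (List.ofFn f) k = ∏ i : Fin n, (c * ((k + (n - 1 - i) : ℕ) : F)) ^ (f i) := by
  induction n with
  | zero => simp [val]
  | succ n ih =>
    rw [List.ofFn_succ, val, ih, Fin.prod_univ_succ, List.length_ofFn]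
    congr 1
    refine Finset.prod_congr rfl fun i _ => ?_
    have : k + (n - 1 - (i : ℕ)) = k + (n + 1 - 1 - ((i.succ : Fin (n + 1)) : ℕ)) := by
      simp only [Fin.val_succ]; omega
    rw [this]

theorem std_ne_zero [CharZero F] {P Q : F[X]} (hP : P = X * Q) (hQ : Q.coeff 0 ≠ 0) (n : ℕ) :
    std (fun j : Fin n => Zo F * To P ^ (j : ℕ)) ≠ 0 := by
  intro h0
  have h1 : ∀ σ : Equiv.Perm (Fin n),
      ((List.ofFn fun i => Zo F * To P ^ ((σ i : Fin n) : ℕ)).prod (X ^ 1 * 1)).coeff (1 + n)
        = ∏ i : Fin n, (Q.coeff 0 * ((n - i : ℕ) : F)) ^ ((σ i : Fin n) : ℕ) := by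
    intro σ
    have h2 := Sym.prod hP (List.ofFn fun i => ((σ i : Fin n) : ℕ))
    rw [List.map_ofFn] at h2
    obtain ⟨w, e⟩ := h2 1 1
    have h3 : ((fun j : ℕ => Zo F * To P ^ j) ∘ fun i => ((σ i : Fin n) : ℕ))
        = fun i => Zo F * To P ^ ((σ i : Fin n) : ℕ) := rfl
    rw [h3] at e
    rw [e, List.length_ofFn, coeff_add, coeff_C_mul, coeff_X_pow, if_pos rfl, mul_one,
      coeff_X_pow_mul', if_neg (by omega), add_zero, coeff_one_zero, mul_one, val_ofFn]
    refine Finset.prod_congr rfl fun i _ => ?_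
    have : 1 + (n - 1 - (i : ℕ)) = n - i := by have := i.2; omega
    rw [this]
  have h4 := congrArg (fun y : Module.End F F[X] => (y (X ^ 1 * 1)).coeff (1 + n)) h0
  simp only [LinearMap.zero_apply, coeff_zero] at h4
  unfold std at h4
  rw [LinearMap.sum_apply, finsetSum_coeff] at h4
  have h5 : ∀ σ : Equiv.Perm (Fin n),
      ((Equiv.Perm.sign σ • (List.ofFn fun i => Zo F * To P ^ ((σ i : Fin n) : ℕ)).prod)
        (X ^ 1 * 1)).coeff (1 + n)
      = Equiv.Perm.sign σ • ∏ i : Fin n,
          (Matrix.vandermonde fun i : Fin n => Q.coeff 0 * ((n - i : ℕ) : F)).transpose (σ i) i := by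
    intro σ
    have h6 := h1 σ
    rcases Int.units_eq_one_or (Equiv.Perm.sign σ) with h | h
    · rw [h, one_smul, one_smul, h6]
      rfl
    · rw [h, Units.neg_smul, one_smul, Units.neg_smul, one_smul, LinearMap.neg_apply, coeff_neg, h6]
      rfl
  rw [Finset.sum_congr rfl fun σ _ => h5 σ, ← Matrix.det_apply, Matrix.det_transpose] at h4
  refine (Matrix.det_vandermonde_ne_zero_iff.2 ?_) h4
  intro i j hij
  have h7 := mul_left_cancel₀ hQ hij
  have h8 : n - (i : ℕ) = n - j := by exact_mod_cast h7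
  have := i.2
  have := j.2
  exact Fin.ext (by omega)

end model

/-- augmentation ideal: noncommutative polynomials without constant term -/
def aug (F : Type u) [Field F] (k : ℕ) : TwoSidedIdeal (FreeAlgebra F (Fin k)) :=
  TwoSidedIdeal.span (Set.range (FreeAlgebra.ι F : Fin k → FreeAlgebra F (Fin k)))

open Pool.Agent.Helper707 in
/-- **Nilpotency.** -/
theorem exists_nil (F : Type u) [Field F] [CharZero F] (n R : ℕ) : ∃ M, 0 < M ∧
    ∀ (B : Type u) [Ring B] [Algebra F B] (z t : B),
      t * z - z * t = aeval z (Idem.P F R) →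
      (∀ q : Fin n → FreeAlgebra F (Fin 2), (∀ i, q i ∈ aug F 2) →
        std (fun i => FreeAlgebra.lift F ![z, t] (q i)) = 0) →
      (aeval z (Idem.P F R)) ^ M = 0 := by
  set P := Idem.P F R with hPdef
  obtain ⟨Q, hP, hQ⟩ : ∃ Q, P = X * Q ∧ Q.coeff 0 ≠ 0 := by
    refine ⟨∏ a ∈ Finset.range R, (X - C (((a + 1 : ℕ)) : F)), ?_, ?_⟩
    · rw [hPdef, Idem.P, Finset.prod_range_succ', mul_comm]
      simp
    · rw [coeff_zero_eq_eval_zero, eval_prod, Finset.prod_ne_zero_iff]
      intro a _
      simp only [eval_sub, eval_X, eval_C, zero_sub, neg_ne_zero]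
      exact_mod_cast Nat.succ_ne_zero a
  set q : Fin n → FreeAlgebra F (Fin 2) := fun j =>
    FreeAlgebra.ι F 0 * FreeAlgebra.ι F 1 ^ (j : ℕ) with hq
  have hqa : ∀ i, q i ∈ aug F 2 := fun i =>
    TwoSidedIdeal.mul_mem_right _ _ _ (TwoSidedIdeal.subset_span ⟨0, rfl⟩)
  obtain ⟨c, hc⟩ := nf' P (std q)
  have hlift : ∀ (B : Type u) [Ring B] [Algebra F B] (z t : B),
      FreeAlgebra.lift F ![z, t] (std q) = std fun j : Fin n => z * t ^ (j : ℕ) := by
    intro B _ _ z t
    have := std_map (FreeAlgebra.lift F ![z, t] : FreeAlgebra F (Fin 2) →ₐ[F] B).toRingHom q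
    refine this.trans ?_
    congr 1
    funext j
    simp only [hq, AlgHom.toRingHom_eq_coe, RingHom.coe_coe, map_mul, map_pow,
      FreeAlgebra.lift_ι_apply]
    rfl
  have hc0 : c ≠ 0 := by
    intro h0
    have h1 := hc (Module.End F F[X]) (Zo F) (To P) (rel_op P)
    rw [h0, ev_zero, hlift] at h1
    exact std_ne_zero hP hQ n h1
  have hP0 : P ≠ 0 := by
    rw [hP]
    refine mul_ne_zero X_ne_zero ?_
    rintro rfl
    exact hQ (by simp)
  set b := c.leadingCoeff * P ^ c.natDegree with hb
  have hb0 : b ≠ 0 := mul_ne_zero (leadingCoeff_ne_zero.2 hc0) (pow_ne_zero _ hP0)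
  refine ⟨b.natDegree + 1, Nat.succ_pos _, fun B _ _ z t h hs => ?_⟩
  have h1 : ev z t c = 0 := by
    rw [← hc B z t h, ← hs q hqa]
    exact std_map (FreeAlgebra.lift F ![z, t] : FreeAlgebra F (Fin 2) →ₐ[F] B).toRingHom q
  have h2 := top_coeff h h1
  rw [pow_succ, nil_of_poly h hb0 h2, zero_mul]

end Pool.Agent.H682R2.StdNil
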