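import Mathlib
import Pool.Agent.H682R2.StdNil

/-!
The standard identity `s_n`, `n ≥ 8`, for lower triangular `5 × 5` matrices over a commutative
ring whose first and last diagonal entries agree.
-/

namespace Pool.Agent.H682R2.StdTri

open Pool.Agent.H682R2.StdNil

section ring

variable {B : Type*} [Ring B]

theorem prod_update_two {n : ℕ} (f : Fin n → B) (p q : Fin n) (h : p < q) :
    ∃ A X C : B, ∀ c d, (List.ofFn (Function.update (Function.update f p c) q d)).prod
      = A * c * X * d * C := by
  induction n with
  | zero => exact p.elim0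
  | succ n ih =>
    have one : ∀ (m : ℕ) (g : Fin m → B) (q : Fin m), ∃ A C : B, ∀ d,
        (List.ofFn (Function.update g q d)).prod = A * d * C := by
      intro m
      induction m with
      | zero => intro g q; exact q.elim0
      | succ m ihm =>
        intro g q
        refine Fin.cases ?_ (fun q' => ?_) q
        · refine ⟨1, (List.ofFn fun i : Fin m => g i.succ).prod, fun d => ?_⟩
          rw [List.ofFn_succ, List.prod_cons, one_mul, Function.update_self]
          congr 2
        · obtain ⟨A, C, hAC⟩ := ihm (fun i => g i.succ) q'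
          refine ⟨g 0 * A, C, fun d => ?_⟩
          rw [List.ofFn_succ, List.prod_cons, Function.update_of_ne (Fin.succ_ne_zero q').symm]
          have : (fun i : Fin m => Function.update g q'.succ d i.succ)
              = Function.update (fun i => g i.succ) q' d := by
            funext i
            by_cases hi : i = q'
            · subst hi; simp
            · rw [Function.update_of_ne hi,
                Function.update_of_ne (fun h => hi (Fin.succ_injective _ h))]
          rw [this, hAC]
          simp only [mul_assoc]
    revert h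
    refine Fin.cases ?_ (fun q' => ?_) q
    · intro h; exact absurd h (Fin.not_lt_zero _)
    · refine Fin.cases ?_ (fun p' => ?_) p
      · intro _
        obtain ⟨A, C, hAC⟩ := one n (fun i => f i.succ) q'
        refine ⟨1, A, C, fun c d => ?_⟩
        rw [List.ofFn_succ, List.prod_cons, Function.update_of_ne (Fin.succ_ne_zero q').symm,
          Function.update_self]
        have : (fun i : Fin n => Function.update (Function.update f 0 c) q'.succ d i.succ)
            = Function.update (fun i => f i.succ) q' d := by
          funext i
          by_cases hi : i = q'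
          · subst hi; simp
          · rw [Function.update_of_ne hi,
              Function.update_of_ne (fun h => hi (Fin.succ_injective _ h)),
              Function.update_of_ne (Fin.succ_ne_zero i)]
        rw [this, hAC]
        simp only [mul_assoc, one_mul]
      · intro h
        obtain ⟨A, X, C, hAC⟩ := ih (fun i => f i.succ) p' q' (Fin.succ_lt_succ_iff.1 h)
        refine ⟨f 0 * A, X, C, fun c d => ?_⟩
        rw [List.ofFn_succ, List.prod_cons, Function.update_of_ne (Fin.succ_ne_zero q').symm,
          Function.update_of_ne (Fin.succ_ne_zero p').symm]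
        have : (fun i : Fin n => Function.update (Function.update f p'.succ c) q'.succ d i.succ)
            = Function.update (Function.update (fun i => f i.succ) p' c) q' d := by
          funext i
          by_cases hi : i = q'
          · subst hi; simp
          · rw [Function.update_of_ne hi,
              Function.update_of_ne (fun h => hi (Fin.succ_injective _ h))]
            by_cases hi' : i = p'
            · subst hi'; simp
            · rw [Function.update_of_ne hi',
                Function.update_of_ne (fun h => hi' (Fin.succ_injective _ h))]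
        rw [this, hAC]
        simp only [mul_assoc]

theorem prod_update_adj {n : ℕ} (f : Fin n → B) (p q : Fin n) (h : (q : ℕ) = p + 1) :
    ∃ A C : B, ∀ c d, (List.ofFn (Function.update (Function.update f p c) q d)).prod
      = A * c * d * C := by
  induction n with
  | zero => exact p.elim0
  | succ n ih =>
    revert h
    refine Fin.cases ?_ (fun q' => ?_) q
    · intro h; simp at h
    · refine Fin.cases ?_ (fun p' => ?_) p
      · intro h
        obtain ⟨m, rfl⟩ : ∃ m, n = m + 1 := ⟨n - 1, by have := q'.2; omega⟩
        have hq : q' = 0 := by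
          apply Fin.ext
          simp only [Fin.val_succ, Fin.val_zero] at h ⊢
          omega
        subst hq
        refine ⟨1, (List.ofFn fun i : Fin m => f i.succ.succ).prod, fun c d => ?_⟩
        rw [List.ofFn_succ, List.prod_cons, List.ofFn_succ, List.prod_cons,
          Function.update_of_ne (Fin.succ_ne_zero _).symm,
          Function.update_self, Function.update_self, one_mul, mul_assoc]
        congr 4
      · intro h
        obtain ⟨A, C, hAC⟩ := ih (fun i => f i.succ) p' q' (by
          simp only [Fin.val_succ] at h; omega)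
        refine ⟨f 0 * A, C, fun c d => ?_⟩
        rw [List.ofFn_succ, List.prod_cons, Function.update_of_ne (Fin.succ_ne_zero q').symm,
          Function.update_of_ne (Fin.succ_ne_zero p').symm]
        have : (fun i : Fin n => Function.update (Function.update f p'.succ c) q'.succ d i.succ)
            = Function.update (Function.update (fun i => f i.succ) p' c) q' d := by
          funext i
          by_cases hi : i = q'
          · subst hi; simp
          · rw [Function.update_of_ne hi,
              Function.update_of_ne (fun h => hi (Fin.succ_injective _ h))]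
            by_cases hi' : i = p'
            · subst hi'; simp
            · rw [Function.update_of_ne hi',
                Function.update_of_ne (fun h => hi' (Fin.succ_injective _ h))]
        rw [this, hAC]
        simp only [mul_assoc]

omit [Ring B] in
theorem update_two_self {n : ℕ} (f : Fin n → B) (p q : Fin n) :
    Function.update (Function.update f p (f p)) q (f q) = f := by
  simp

omit [Ring B] in
theorem update_two_swap {n : ℕ} (f : Fin n → B) {p q : Fin n} (h : p ≠ q) :
    Function.update (Function.update f p (f q)) q (f p) = fun i => f (Equiv.swap p q i) := by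
  funext i
  by_cases hq : i = q
  · subst hq; rw [Function.update_self, Equiv.swap_apply_right]
  · rw [Function.update_of_ne hq]
    by_cases hp : i = p
    · subst hp; rw [Function.update_self, Equiv.swap_apply_left]
    · rw [Function.update_of_ne hp, Equiv.swap_apply_of_ne_of_ne hp hq]

/-- exchanging two factors with `a x b = b x a` -/
theorem prod_swap {n : ℕ} (f : Fin n → B) {p q : Fin n} (hpq : p ≠ q)
    (h : ∀ x, f p * x * f q = f q * x * f p) :
    (List.ofFn fun i => f (Equiv.swap p q i)).prod = (List.ofFn f).prod := by
  rcases lt_or_gt_of_ne hpq with hlt | hlt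
  · obtain ⟨A, X, C, hAC⟩ := prod_update_two f p q hlt
    rw [← update_two_swap f hpq, hAC]
    conv_rhs => rw [← update_two_self f p q]
    rw [hAC]
    calc A * f q * X * f p * C = A * (f q * X * f p) * C := by simp only [mul_assoc]
      _ = A * (f p * X * f q) * C := by rw [h]
      _ = _ := by simp only [mul_assoc]
  · obtain ⟨A, X, C, hAC⟩ := prod_update_two f q p hlt
    rw [Equiv.swap_comm, ← update_two_swap f hpq.symm, hAC]
    conv_rhs => rw [← update_two_self f q p]
    rw [hAC]
    calc A * f p * X * f q * C = A * (f p * X * f q) * C := by simp only [mul_assoc]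
      _ = A * (f q * X * f p) * C := by rw [h]
      _ = _ := by simp only [mul_assoc]

theorem std_eq_zero_of_swap {n : ℕ} (y : Fin n → B) {i j : Fin n} (hij : i ≠ j)
    (h : ∀ x, y i * x * y j = y j * x * y i) : std y = 0 := by
  classical
  unfold std
  refine Finset.sum_involution (fun σ _ => Equiv.swap i j * σ) ?_ ?_ (fun _ _ => Finset.mem_univ _)
    ?_
  · intro σ _
    have h1 : (List.ofFn fun k => y ((Equiv.swap i j * σ) k)).prod
        = (List.ofFn fun k => y (σ k)).prod := by
      have hne : σ.symm i ≠ σ.symm j := fun h => hij (σ.symm.injective h)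
      have h2 := prod_swap (fun k => y (σ k)) hne (by simpa using h)
      rw [← h2]
      congr 2
      funext k
      congr 1
      rw [Equiv.Perm.mul_apply]
      by_cases h3 : k = σ.symm i
      · subst h3; simp
      · by_cases h4 : k = σ.symm j
        · subst h4; simp
        · rw [Equiv.swap_apply_of_ne_of_ne h3 h4, Equiv.swap_apply_of_ne_of_ne]
          · intro h5; exact h3 (by rw [← h5]; simp)
          · intro h5; exact h4 (by rw [← h5]; simp)
    rw [h1, Equiv.Perm.sign_mul, Equiv.Perm.sign_swap hij]
    rcases Int.units_eq_one_or (Equiv.Perm.sign σ) with h5 | h5 <;> rw [h5] <;> simp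
  · intro σ _ _ h6
    have : Equiv.swap i j = 1 := by
      have := congrArg (· * σ⁻¹) h6
      simpa using this
    rw [Equiv.swap_eq_one_iff] at this
    exact hij this
  · intro σ _
    rw [← mul_assoc, Equiv.swap_mul_self, one_mul]

/-- the neighbouring position `0 ↔ 1, 2 ↔ 3, …` -/
def nb {n : ℕ} (hn : Even n) (p : Fin n) : Fin n :=
  if h : (p : ℕ) % 2 = 0 then ⟨p + 1, by have := p.2; obtain ⟨k, hk⟩ := hn; omega⟩
  else ⟨p - 1, by have := p.2; omega⟩

theorem nb_ne {n : ℕ} (hn : Even n) (p : Fin n) : p ≠ nb hn p := by
  intro h
  have h1 := congrArg Fin.val h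
  unfold nb at h1
  split_ifs at h1 with h2
  · simp at h1
  · simp at h1; omega

theorem nb_nb {n : ℕ} (hn : Even n) (p : Fin n) : nb hn (nb hn p) = p := by
  apply Fin.ext
  unfold nb
  by_cases h : (p : ℕ) % 2 = 0
  · have h1 : ¬ ((p : ℕ) + 1) % 2 = 0 := by omega
    simp [h, h1]
  · have h1 : ((p : ℕ) - 1) % 2 = 0 := by omega
    simp [h, h1]; omega

theorem prod_swap_nb {n : ℕ} (hn : Even n) (f : Fin n → B) (p : Fin n)
    (h : f p * f (nb hn p) = f (nb hn p) * f p) :
    (List.ofFn fun i => f (Equiv.swap p (nb hn p) i)).prod = (List.ofFn f).prod := by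
  have hpq := nb_ne hn p
  by_cases h2 : (p : ℕ) % 2 = 0
  · obtain ⟨A, C, hAC⟩ := prod_update_adj f p (nb hn p) (by simp [nb, h2])
    rw [← update_two_swap f hpq, hAC]
    conv_rhs => rw [← update_two_self f p (nb hn p)]
    rw [hAC, mul_assoc A (f (nb hn p)), ← h, ← mul_assoc A]
  · obtain ⟨A, C, hAC⟩ := prod_update_adj f (nb hn p) p (by simp [nb, h2]; omega)
    rw [Equiv.swap_comm, ← update_two_swap f hpq.symm, hAC]
    conv_rhs => rw [← update_two_self f (nb hn p) p]
    rw [hAC, mul_assoc A (f p), h, ← mul_assoc A]

/-- an even standard polynomial vanishes if one argument is central -/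
theorem std_eq_zero_of_central {n : ℕ} (hn : Even n) (y : Fin n → B) (i : Fin n)
    (h : ∀ x, y i * x = x * y i) : std y = 0 := by
  classical
  unfold std
  refine Finset.sum_involution
    (fun σ _ => σ * Equiv.swap (σ.symm i) (nb hn (σ.symm i))) ?_ ?_
    (fun _ _ => Finset.mem_univ _) ?_
  · intro σ _
    have h1 : (List.ofFn fun k => y ((σ * Equiv.swap (σ.symm i) (nb hn (σ.symm i))) k)).prod
        = (List.ofFn fun k => y (σ k)).prod :=
      prod_swap_nb hn (fun k => y (σ k)) (σ.symm i) (by
        simp only [Equiv.apply_symm_apply]; exact h _)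
    rw [h1, Equiv.Perm.sign_mul, Equiv.Perm.sign_swap (nb_ne hn _)]
    rcases Int.units_eq_one_or (Equiv.Perm.sign σ) with h5 | h5 <;> rw [h5] <;> simp
  · intro σ _ _ h6
    have : Equiv.swap (σ.symm i) (nb hn (σ.symm i)) = 1 := by
      have := congrArg (σ⁻¹ * ·) h6
      simpa using this
    rw [Equiv.swap_eq_one_iff] at this
    exact nb_ne hn _ this
  · intro σ _
    have h7 : (σ * Equiv.swap (σ.symm i) (nb hn (σ.symm i))).symm i = nb hn (σ.symm i) := by
      rw [Equiv.symm_apply_eq]
      simp
    simp only [h7, nb_nb]
    rw [Equiv.swap_comm (nb hn (σ.symm i)), mul_assoc, Equiv.swap_mul_self, mul_one]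

end ring

section alt

variable {R B : Type*} [CommRing R] [Ring B] [Algebra R B]

/-- the standard polynomial as an alternating map -/
noncomputable def stdAlt (R : Type*) (B : Type*) [CommRing R] [Ring B] [Algebra R B] (n : ℕ) :
    B [⋀^Fin n]→ₗ[R] B :=
  MultilinearMap.alternatization (MultilinearMap.mkPiAlgebraFin R n B)

theorem stdAlt_apply {n : ℕ} (y : Fin n → B) : stdAlt R B n y = std y := by
  unfold stdAlt std
  rw [MultilinearMap.alternatization_apply]
  refine Finset.sum_congr rfl fun σ _ => ?_
  rw [MultilinearMap.domDomCongr_apply, MultilinearMap.mkPiAlgebraFin_apply]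

end alt

section tri

variable {R : Type*} [CommRing R]

/-- depth of a lower triangular matrix -/
def Dp (d : ℕ) (A : Matrix (Fin 5) (Fin 5) R) : Prop := ∀ i j : Fin 5, (i : ℕ) < j + d → A i j = 0

theorem Dp.mul {d e : ℕ} {A B : Matrix (Fin 5) (Fin 5) R} (hA : Dp d A) (hB : Dp e B) :
    Dp (d + e) (A * B) := by
  intro i j h
  rw [Matrix.mul_apply]
  refine Finset.sum_eq_zero fun k _ => ?_
  by_cases h1 : (i : ℕ) < k + d
  · rw [hA i k h1, zero_mul]
  · rw [hB k j (by omega), mul_zero]

theorem Dp.prod {n : ℕ} (f : Fin n → Matrix (Fin 5) (Fin 5) R) (d : Fin n → ℕ)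
    (h : ∀ i, Dp (d i) (f i)) : Dp (∑ i, d i) (List.ofFn f).prod := by
  induction n with
  | zero =>
    intro i j hij
    simp only [Finset.univ_eq_empty, Finset.sum_empty, add_zero] at hij
    rw [List.ofFn_zero, List.prod_nil, Matrix.one_apply_ne]
    intro h; subst h; omega
  | succ n ih =>
    rw [List.ofFn_succ, List.prod_cons, Fin.sum_univ_succ]
    exact (h 0).mul (ih _ _ fun i => h i.succ)

theorem eq_zero_of_Dp {A : Matrix (Fin 5) (Fin 5) R} {d : ℕ} (h : Dp d A) (hd : 5 ≤ d) : A = 0 := by
  ext i j
  exact h i j (by have := i.2; omega)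

theorem std_eq_zero_of_depth {n : ℕ} (y : Fin n → Matrix (Fin 5) (Fin 5) R) (d : Fin n → ℕ)
    (h : ∀ i, Dp (d i) (y i)) (hd : 5 ≤ ∑ i, d i) : std y = 0 := by
  unfold std
  refine Finset.sum_eq_zero fun σ _ => ?_
  have h1 := Dp.prod (fun i => y (σ i)) (fun i => d (σ i)) fun i => h _
  rw [eq_zero_of_Dp h1, smul_zero]
  rw [Equiv.sum_comp σ d]
  exact hd

/-- the matrices: lower triangular with equal first and last diagonal entry -/
structure Tri (A : Matrix (Fin 5) (Fin 5) R) : Prop where
  low : Dp 0 A
  eq : A 0 0 = A 4 4

/-- the idempotent `E_00 + E_44` -/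
def e04 (R : Type*) [CommRing R] : Matrix (Fin 5) (Fin 5) R :=
  Matrix.single 0 0 1 + Matrix.single 4 4 1

/-- the components of a matrix -/
def comp (A : Matrix (Fin 5) (Fin 5) R) (k : Fin 5) : Matrix (Fin 5) (Fin 5) R :=
  if k = 4 then Matrix.of fun i j => if j < i then A i j else 0
  else if k = 0 then A 0 0 • e04 R
  else A k k • Matrix.single k k 1

theorem comp_sum {A : Matrix (Fin 5) (Fin 5) R} (h : Tri A) : ∑ k, comp A k = A := by
  have h44 := h.eq
  ext i j
  have hl : ∀ i j : Fin 5, i < j → A i j = 0 := fun i j hij => h.low i j (by simpa using hij)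
  rw [Matrix.sum_apply, Fin.sum_univ_five]
  fin_cases i <;> fin_cases j <;>
    simp [comp, e04, Matrix.single_apply, Matrix.add_apply, h44, hl]

theorem comp_four_depth (A : Matrix (Fin 5) (Fin 5) R) : Dp 1 (comp A 4) := by
  intro i j h
  simp only [comp, if_true, Matrix.of_apply]
  rw [if_neg]
  intro h2
  have : (j : ℕ) < i := h2
  omega

theorem comp_depth (A : Matrix (Fin 5) (Fin 5) R) (k : Fin 5) : Dp 0 (comp A k) := by
  intro i j h
  have hij : i ≠ j := by rintro rfl; omega
  have hji : ¬ (j < i) := by
    intro h2
    have : (j : ℕ) < i := h2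
    omega
  unfold comp
  split_ifs with h1 h2
  · simp [hji]
  · have a : ¬ ((0 : Fin 5) = i ∧ (0 : Fin 5) = j) := by rintro ⟨rfl, rfl⟩; exact hij rfl
    have b : ¬ ((4 : Fin 5) = i ∧ (4 : Fin 5) = j) := by rintro ⟨rfl, rfl⟩; exact hij rfl
    simp only [e04, Matrix.smul_apply, Matrix.add_apply, Matrix.single_apply, a, b, if_false,
      add_zero, smul_zero]
  · have a : ¬ (k = i ∧ k = j) := by rintro ⟨rfl, rfl⟩; exact hij rfl
    simp only [Matrix.smul_apply, Matrix.single_apply, a, if_false, smul_zero]

theorem smul_swap {B : Type*} [Ring B] [Algebra R B] (a b : R) (e x : B) :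
    (a • e) * x * (b • e) = (b • e) * x * (a • e) := by
  simp only [smul_mul_assoc, mul_smul_comm, smul_smul, mul_comm a b]

/-- the key case: one component of each of the types `0, 1, 2, 3` -/
theorem std_key {n : ℕ} (hn : Even n) (v : Fin n → Matrix (Fin 5) (Fin 5) R)
    (A : Fin 4 → R) (ι : Fin 4 → Fin n) (hι : Function.Injective ι)
    (h0 : v (ι 0) = A 0 • e04 R)
    (h1 : ∀ k : Fin 4, k ≠ 0 → v (ι k) = A k • Matrix.single (k.castSucc) (k.castSucc) 1) :
    std v = 0 := by
  have e : e04 R = 1 - Matrix.single 1 1 1 - Matrix.single 2 2 1 - Matrix.single 3 3 1 := by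
    ext i j
    fin_cases i <;> fin_cases j <;>
      simp [e04, Matrix.single_apply, Matrix.one_apply]
  have hv : v = Function.update v (ι 0) (A 0 • e04 R) := by
    rw [← h0]; simp
  have key : ∀ k : Fin 4, k ≠ 0 →
      stdAlt R (Matrix (Fin 5) (Fin 5) R) n
        (Function.update v (ι 0) (Matrix.single k.castSucc k.castSucc 1)) = 0 := by
    intro k hk
    rw [stdAlt_apply]
    have hne : ι k ≠ ι 0 := fun h => hk (hι h)
    refine std_eq_zero_of_swap _ hne.symm fun x => ?_
    rw [Function.update_self, Function.update_of_ne hne, h1 k hk]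
    have := smul_swap (R := R) 1 (A k) (Matrix.single k.castSucc k.castSucc (1 : R)) x
    rwa [one_smul] at this
  rw [← stdAlt_apply (R := R), hv, AlternatingMap.map_update_smul, e, AlternatingMap.map_update_sub,
    AlternatingMap.map_update_sub, AlternatingMap.map_update_sub]
  have k1 := key 1 (by decide)
  have k2 := key 2 (by decide)
  have k3 := key 3 (by decide)
  have c1 : (1 : Fin 4).castSucc = 1 := rfl
  have c2 : (2 : Fin 4).castSucc = 2 := rfl
  have c3 : (3 : Fin 4).castSucc = 3 := rfl
  rw [c1] at k1
  rw [c2] at k2
  rw [c3] at k3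
  rw [k1, k2, k3]
  have k0 : stdAlt R (Matrix (Fin 5) (Fin 5) R) n (Function.update v (ι 0) 1) = 0 := by
    rw [stdAlt_apply]
    refine std_eq_zero_of_central hn _ (ι 0) fun x => ?_
    rw [Function.update_self, one_mul, mul_one]
  rw [k0]
  simp

theorem std_tri {n : ℕ} (hn : 8 ≤ n) (y : Fin n → Matrix (Fin 5) (Fin 5) R)
    (hy : ∀ i, Tri (y i)) : std y = 0 := by
  classical
  have h1 : y = fun i => ∑ k, comp (y i) k := by
    funext i; exact (comp_sum (hy i)).symm
  rw [← stdAlt_apply (R := R), h1]
  have h2 := MultilinearMap.map_sum (stdAlt R (Matrix (Fin 5) (Fin 5) R) n).toMultilinearMap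
    (fun i k => comp (y i) k)
  refine h2.trans (Finset.sum_eq_zero fun r _ => ?_)
  change stdAlt R (Matrix (Fin 5) (Fin 5) R) n (fun i => comp (y i) (r i)) = 0
  rw [stdAlt_apply]
  set d : Fin n → ℕ := fun i => if r i = 4 then 1 else 0 with hd
  by_cases h5 : 5 ≤ ∑ i, d i
  · refine std_eq_zero_of_depth _ d (fun i => ?_) h5
    simp only [hd]
    split_ifs with h
    · rw [h]; exact comp_four_depth _
    · exact comp_depth _ _
  · by_cases h6 : ∃ i j, i ≠ j ∧ r i = r j ∧ r i ≠ 4
    · obtain ⟨i, j, hij, hr, h4⟩ := h6
      refine std_eq_zero_of_swap _ hij fun x => ?_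
      rw [← hr]
      unfold comp
      rw [if_neg h4, if_neg h4]
      split_ifs
      · exact smul_swap _ _ _ _
      · exact smul_swap _ _ _ _
    · push Not at h6
      -- the set of indices of type other than `4`
      set S := Finset.univ.filter fun i => r i ≠ 4 with hS
      have hcard : (Finset.univ.filter fun i => r i = 4).card = ∑ i, d i := by
        rw [Finset.card_filter]
      have hsum : (Finset.univ.filter fun i => r i = 4).card + S.card = n := by
        rw [hS, Finset.card_filter_add_card_filter_not]
        simp
      have hinj : Set.InjOn r S := by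
        intro i hi j hj hij
        by_contra hne
        have h8 : r i ≠ 4 := by simpa [hS] using hi
        exact h8 (h6 i j hne hij)
      have himg : S.image r ⊆ Finset.univ.erase 4 := by
        intro k hk
        rw [Finset.mem_image] at hk
        obtain ⟨i, hi, rfl⟩ := hk
        have h8 : r i ≠ 4 := by simpa [hS] using hi
        simpa using h8
      have hc4 : (Finset.univ.erase (4 : Fin 5)).card = 4 := by simp
      have hcS : (S.image r).card = S.card := Finset.card_image_of_injOn hinj
      have hle := Finset.card_le_card himg
      have hSc : S.card = 4 ∧ n = 8 := by omega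
      have himg' : S.image r = Finset.univ.erase 4 :=
        Finset.eq_of_subset_of_card_le himg (by omega)
      have hex : ∀ k : Fin 4, ∃ i, r i = k.castSucc := by
        intro k
        have : k.castSucc ∈ S.image r := by
          rw [himg']
          have : k.castSucc ≠ 4 := by
            intro h
            have := congrArg Fin.val h
            simp at this
            omega
          simpa using this
        rw [Finset.mem_image] at this
        obtain ⟨i, _, hi⟩ := this
        exact ⟨i, hi⟩
      choose ι hι using hex
      have hιi : Function.Injective ι := by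
        intro a b hab
        have := (hι a).symm.trans ((congrArg r hab).trans (hι b))
        exact Fin.castSucc_injective _ this
      have hkne : ∀ k : Fin 4, k.castSucc ≠ (4 : Fin 5) := by decide
      refine std_key (by rw [hSc.2]; decide) _ (fun k => if k = 0 then y (ι 0) 0 0 else
        y (ι k) k.castSucc k.castSucc) ι hιi ?_ ?_
      · simp only [hι, if_true]
        rfl
      · intro k hk
        have hk0 : k.castSucc ≠ (0 : Fin 5) := by
          intro h
          exact hk (Fin.castSucc_injective _ h)
        simp only [hι, hk, if_false, comp, hkne, hk0]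

end tri

end Pool.Agent.H682R2.StdTri
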