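import Mathlib
import Pool.Agent.Helper707.Model
import Pool.Agent.H682R2.StdTri

/-!
The standard identities `s_n`, `n ≥ 8`, hold on the module.
-/

namespace Pool.Agent.H682R2.StdModule

open Finset Polynomial Pool.Agent.Helper707.Idem Pool.Agent.Helper707.Rel
  Pool.Agent.Helper707.Model Pool.Agent.H682R2.StdNil Pool.Agent.H682R2.StdTri

section alg

variable {F R : Type*} [Field F] [CommRing R] [Algebra F R]

theorem tri_add {A B : Matrix (Fin 5) (Fin 5) R} (hA : Tri A) (hB : Tri B) : Tri (A + B) := by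
  refine ⟨fun i j h => ?_, ?_⟩
  · rw [Matrix.add_apply, hA.low i j h, hB.low i j h, add_zero]
  · rw [Matrix.add_apply, Matrix.add_apply, hA.eq, hB.eq]

theorem tri_mul {A B : Matrix (Fin 5) (Fin 5) R} (hA : Tri A) (hB : Tri B) : Tri (A * B) := by
  refine ⟨by simpa using hA.low.mul hB.low, ?_⟩
  have hl : ∀ i j : Fin 5, i < j → A i j = 0 := fun i j hij => hA.low i j (by simpa using hij)
  have hr : ∀ i j : Fin 5, i < j → B i j = 0 := fun i j hij => hB.low i j (by simpa using hij)
  rw [Matrix.mul_apply, Matrix.mul_apply, Fin.sum_univ_five, Fin.sum_univ_five,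
    hl 0 1 (by decide), hl 0 2 (by decide), hl 0 3 (by decide), hl 0 4 (by decide),
    hr 0 4 (by decide), hr 1 4 (by decide), hr 2 4 (by decide), hr 3 4 (by decide), hA.eq, hB.eq]
  ring

theorem tri_scalar (r : F) : Tri (algebraMap F (Matrix (Fin 5) (Fin 5) R) r) := by
  refine ⟨fun i j h => ?_, ?_⟩
  · rw [Matrix.algebraMap_matrix_apply, if_neg]
    rintro rfl; omega
  · simp [Matrix.algebraMap_matrix_apply]

theorem lift_tri {A : Fin 2 → Matrix (Fin 5) (Fin 5) R} (hA : ∀ i, Tri (A i))
    (p : FreeAlgebra F (Fin 2)) : Tri (FreeAlgebra.lift F A p) := by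
  induction p using FreeAlgebra.induction with
  | grade0 r => rw [AlgHom.commutes]; exact tri_scalar r
  | grade1 i => rw [FreeAlgebra.lift_ι_apply]; exact hA i
  | mul a b ha hb => rw [map_mul]; exact tri_mul ha hb
  | add a b ha hb => rw [map_add]; exact tri_add ha hb

end alg

variable {F : Type*} [Field F]

variable (m v0 l0 : ℕ) (j0 : Bool)

/-- level of a basis element -/
def idx : Bs → Fin 5
  | .fin => 0
  | .c _ _ => 1
  | .b _ _ _ _ => 2
  | .s _ _ _ _ _ => 3
  | .t _ _ _ _ _ => 4

variable (F) in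
/-- a monomial in two commuting variables -/
noncomputable def mon (a b : ℕ) : F[X][X] := monomial b (monomial a 1)

variable (F) in
/-- coefficient of a basis element -/
noncomputable def coef : Bs → F[X][X]
  | .fin => 1
  | .c j a => if j = j0 then mon F 0 a else 0
  | .b l j a b => if l = l0 ∧ j = j0 then mon F a b else 0
  | .s v l j a b => if v = v0 ∧ l = l0 ∧ j = j0 then mon F a b else 0
  | .t v l j a b => if v = v0 ∧ l = l0 ∧ j = j0 then mon F a b else 0

/-- evaluation of a basis element -/
noncomputable def ev5 (β : Bs) : Fin 5 → F[X][X] :=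
  Pi.single (idx β) (coef F v0 l0 j0 β)

/-- evaluation map -/
noncomputable def EV : (Bs →₀ F) →ₗ[F] (Fin 5 → F[X][X]) :=
  Finsupp.linearCombination F (ev5 v0 l0 j0)

theorem EV_bv (β : Bs) : EV (F := F) v0 l0 j0 (bv F β) = ev5 v0 l0 j0 β := by
  simp [EV, bv]

variable (F) in
/-- the second generator as a matrix, column by column -/
noncomputable def Xcol (k : Fin 5) : Fin 5 → F[X][X] :=
  if k = 0 then Pi.single (1 : Fin 5) (1 : F[X][X])
  else if k = 1 then Pi.single (1 : Fin 5) (X : F[X][X])
    + (if l0 < 2 * m then Pi.single (2 : Fin 5) (1 : F[X][X]) else 0)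
  else if k = 2 then Pi.single (2 : Fin 5) (Polynomial.C X : F[X][X])
    + (if v0 = l0 ∨ v0 = l0 + 1 then Pi.single (3 : Fin 5) (1 : F[X][X]) else 0)
  else if k = 3 then Pi.single (4 : Fin 5) (1 : F[X][X])
  else 0

variable (F) in
/-- the second generator as a matrix -/
noncomputable def Xm : Matrix (Fin 5) (Fin 5) (F[X][X]) :=
  Matrix.of fun i k => Xcol F m v0 l0 k i

/-- diagonal entries of the first generator -/
def zd (k : Fin 5) : ℕ :=
  if k = 1 then eigV m (.c j0)
  else if k = 2 then eigV m (.b l0)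
  else if k = 3 then eigV m (.s v0)
  else eigV m .al

variable (F) in
/-- the first generator as a matrix -/
noncomputable def Zm : Matrix (Fin 5) (Fin 5) (F[X][X]) :=
  Matrix.diagonal fun k => (zd m v0 l0 j0 k : F[X][X])

theorem Xm_tri : Tri (Xm F m v0 l0) := by
  refine ⟨fun i j h => ?_, ?_⟩
  · simp only [Xm, Matrix.of_apply, Xcol]
    fin_cases i <;> fin_cases j <;> simp at h ⊢ <;> split_ifs <;> simp
  · simp [Xm, Xcol]

theorem Zm_tri : Tri (Zm F m v0 l0 j0) := by
  refine ⟨fun i j h => ?_, ?_⟩
  · simp only [Zm]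
    rw [Matrix.diagonal_apply_ne]
    rintro rfl; omega
  · simp [Zm, zd]

theorem Xm_single (k : Fin 5) (x : F[X][X]) :
    (Xm F m v0 l0).mulVec (Pi.single k x) = x • Xcol F m v0 l0 k := by
  ext1 i
  simp only [Matrix.mulVec, dotProduct_single, Xm, Matrix.of_apply, Pi.smul_apply, smul_eq_mul]
  exact mul_comm _ _

theorem Zm_single (k : Fin 5) (x : F[X][X]) :
    (Zm F m v0 l0 j0).mulVec (Pi.single k x)
      = (zd m v0 l0 j0 k) • (Pi.single k x : Fin 5 → F[X][X]) := by
  ext1 i
  simp only [Zm, Matrix.mulVec_diagonal, Pi.smul_apply, nsmul_eq_mul]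
  by_cases h : i = k
  · subst h; rfl
  · simp [h]

theorem mon_mul_X (a b : ℕ) : mon F a b * X = mon F a (b + 1) := by
  simp [mon, Polynomial.monomial_mul_X]

theorem mon_mul_CX (a b : ℕ) : mon F a b * Polynomial.C X = mon F (a + 1) b := by
  simp [mon, Polynomial.monomial_mul_C, Polynomial.monomial_mul_X]

theorem mon_zero : mon F 0 0 = 1 := by
  simp [mon]

theorem smul_single (k : Fin 5) (x y : F[X][X]) :
    x • (Pi.single k y : Fin 5 → F[X][X]) = Pi.single k (x * y) := by
  rw [← Pi.single_smul, smul_eq_mul]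

theorem EV_X (y : Bs →₀ F) :
    EV v0 l0 j0 (Xop F m y) = (Xm F m v0 l0).mulVec (EV v0 l0 j0 y) := by
  induction y using Finsupp.induction_linear with
  | zero => simp
  | add a b ha hb => rw [map_add, map_add, map_add, ha, hb, Matrix.mulVec_add]
  | single β c =>
    have hs : (Finsupp.single β c : Bs →₀ F) = c • bv F β := by simp [bv]
    rw [hs, map_smul, map_smul, map_smul, Matrix.mulVec_smul]
    congr 1
    rw [Xop_bv, EV_bv]
    unfold ev5
    rw [Xm_single]
    cases β with
    | fin =>
      simp only [xb, map_add, EV_bv, ev5, idx, coef, Xcol]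
      cases j0 <;> simp [mon_zero]
    | c j n =>
      simp only [xb, map_add, map_sum, EV_bv, ev5, idx, coef, Xcol]
      by_cases hj : j = j0
      · subst hj
        by_cases hl : l0 < 2 * m
        · rw [Finset.sum_eq_single l0]
          · simp [smul_single, hl, mon_mul_X]
          · intro b _ hb
            simp [hb]
          · intro h; exact absurd (Finset.mem_range.2 hl) h
        · rw [Finset.sum_eq_zero]
          · simp [smul_single, hl, mon_mul_X]
          · intro x hx
            rw [Finset.mem_range] at hx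
            have : x ≠ l0 := by omega
            simp [this]
      · simp [hj]
    | b l j n n' =>
      simp only [xb, map_add, EV_bv, ev5, idx, coef, Xcol]
      by_cases hj : l = l0 ∧ j = j0
      · obtain ⟨rfl, rfl⟩ := hj
        by_cases h1 : v0 = l
        · subst h1
          simp [smul_single, mon_mul_CX]
        · by_cases h2 : v0 = l + 1
          · subst h2
            simp [smul_single, mon_mul_CX]
          · have h3 : ¬ (l = v0) := fun h => h1 h.symm
            have h4 : ¬ (l + 1 = v0) := fun h => h2 h.symm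
            simp [smul_single, mon_mul_CX, h1, h2, h3, h4]
      · simp [hj]
    | s v l j n n' =>
      simp only [xb, EV_bv, ev5, idx, coef, Xcol]
      by_cases hj : v = v0 ∧ l = l0 ∧ j = j0
      · simp [hj, smul_single]
      · simp [hj]
    | t v l j n n' =>
      simp [xb, idx, coef, Xcol]

theorem EV_Z (y : Bs →₀ F) :
    EV v0 l0 j0 (Zop F m y) = (Zm F m v0 l0 j0).mulVec (EV v0 l0 j0 y) := by
  induction y using Finsupp.induction_linear with
  | zero => simp
  | add a b ha hb => rw [map_add, map_add, map_add, ha, hb, Matrix.mulVec_add]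
  | single β c =>
    have hs : (Finsupp.single β c : Bs →₀ F) = c • bv F β := by simp [bv]
    rw [hs, map_smul, map_smul, map_smul, Matrix.mulVec_smul]
    congr 1
    rw [Zop_bv, map_smul, EV_bv]
    unfold ev5
    rw [Zm_single, Nat.cast_smul_eq_nsmul]
    cases β with
    | fin => rfl
    | c j n =>
      by_cases hj : j = j0
      · subst hj; rfl
      · simp [coef, hj]
    | b l j n n' =>
      by_cases hj : l = l0 ∧ j = j0
      · obtain ⟨rfl, rfl⟩ := hj; rfl
      · simp [coef, hj]
    | s v l j n n' =>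
      by_cases hj : v = v0 ∧ l = l0 ∧ j = j0
      · obtain ⟨rfl, rfl, rfl⟩ := hj; rfl
      · simp [coef, hj]
    | t v l j n n' => rfl

theorem EV_lift (p : FreeAlgebra F (Fin 2)) (y : Bs →₀ F) :
    EV v0 l0 j0 (FreeAlgebra.lift F ![Zop F m, Xop F m] p y)
      = (FreeAlgebra.lift F ![Zm F m v0 l0 j0, Xm F m v0 l0] p).mulVec
          (EV v0 l0 j0 y) := by
  induction p using FreeAlgebra.induction generalizing y with
  | grade0 r =>
    rw [AlgHom.commutes, AlgHom.commutes, Module.algebraMap_end_apply, map_smul,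
      Algebra.algebraMap_eq_smul_one, Matrix.smul_mulVec, Matrix.one_mulVec]
  | grade1 i =>
    rw [FreeAlgebra.lift_ι_apply, FreeAlgebra.lift_ι_apply]
    fin_cases i
    · exact EV_Z ..
    · exact EV_X ..
  | mul a b ha hb =>
    rw [map_mul, map_mul, Module.End.mul_apply, ha, hb, Matrix.mulVec_mulVec]
  | add a b ha hb =>
    rw [map_add, map_add, LinearMap.add_apply, map_add, ha, hb, Matrix.add_mulVec]

theorem mon_coeff (a b a' b' : ℕ) :
    ((mon F a b).coeff b').coeff a' = if a = a' ∧ b = b' then 1 else 0 := by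
  unfold mon
  rw [Polynomial.coeff_monomial]
  by_cases h : b = b'
  · rw [if_pos h, Polynomial.coeff_monomial]
    simp [h]
  · rw [if_neg h]
    simp [h]

theorem EV_fin (y : Bs →₀ F) :
    (((EV v0 l0 j0 y) 0).coeff 0).coeff 0 = y .fin := by
  induction y using Finsupp.induction_linear with
  | zero => simp
  | add a b ha hb => simp [ha, hb]
  | single β c =>
    have hs : (Finsupp.single β c : Bs →₀ F) = c • bv F β := by simp [bv]
    rw [hs, map_smul, EV_bv]
    cases β <;> simp [ev5, idx, coef, bv]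

theorem EV_c (j : Bool) (a : ℕ) (y : Bs →₀ F) :
    (((EV v0 l0 j y) 1).coeff a).coeff 0 = y (.c j a) := by
  induction y using Finsupp.induction_linear with
  | zero => simp
  | add a b ha hb => simp [ha, hb]
  | single β c =>
    have hs : (Finsupp.single β c : Bs →₀ F) = c • bv F β := by simp [bv]
    rw [hs, map_smul, EV_bv]
    cases β <;> simp [ev5, idx, coef, bv]
    rename_i j' a'
    by_cases hj : j' = j ∧ a' = a
    · obtain ⟨rfl, rfl⟩ := hj
      simp [mon_coeff]
    · have hne : Bs.c j a ≠ Bs.c j' a' := by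
        intro h; injection h with h1 h2; exact hj ⟨h1.symm, h2.symm⟩
      rw [Finsupp.single_eq_of_ne hne]
      split_ifs with h
      · have h2 : a' ≠ a := fun h3 => hj ⟨h, h3⟩
        simp [mon_coeff, h2]
      · simp

theorem EV_b (l : ℕ) (j : Bool) (a b : ℕ) (y : Bs →₀ F) :
    (((EV v0 l j y) 2).coeff b).coeff a = y (.b l j a b) := by
  induction y using Finsupp.induction_linear with
  | zero => simp
  | add a b ha hb => simp [ha, hb]
  | single β c =>
    have hs : (Finsupp.single β c : Bs →₀ F) = c • bv F β := by simp [bv]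
    rw [hs, map_smul, EV_bv]
    cases β <;> simp [ev5, idx, coef, bv]
    rename_i l' j' a' b'
    by_cases hj : l' = l ∧ j' = j ∧ a' = a ∧ b' = b
    · obtain ⟨rfl, rfl, rfl, rfl⟩ := hj
      simp [mon_coeff]
    · have hne : Bs.b l j a b ≠ Bs.b l' j' a' b' := by
        intro h; injection h with h1 h2 h3 h4; exact hj ⟨h1.symm, h2.symm, h3.symm, h4.symm⟩
      rw [Finsupp.single_eq_of_ne hne]
      split_ifs with h
      · have h2 : ¬ (a' = a ∧ b' = b) := fun h3 => hj ⟨h.1, h.2, h3⟩
        simp [mon_coeff, h2]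
      · simp

theorem EV_s (v l : ℕ) (j : Bool) (a b : ℕ) (y : Bs →₀ F) :
    (((EV v l j y) 3).coeff b).coeff a = y (.s v l j a b) := by
  induction y using Finsupp.induction_linear with
  | zero => simp
  | add a b ha hb => simp [ha, hb]
  | single β c =>
    have hs : (Finsupp.single β c : Bs →₀ F) = c • bv F β := by simp [bv]
    rw [hs, map_smul, EV_bv]
    cases β <;> simp [ev5, idx, coef, bv]
    rename_i v' l' j' a' b'
    by_cases hj : v' = v ∧ l' = l ∧ j' = j ∧ a' = a ∧ b' = b
    · obtain ⟨rfl, rfl, rfl, rfl, rfl⟩ := hj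
      simp [mon_coeff]
    · have hne : Bs.s v l j a b ≠ Bs.s v' l' j' a' b' := by
        intro h
        injection h with h1 h2 h3 h4 h5
        exact hj ⟨h1.symm, h2.symm, h3.symm, h4.symm, h5.symm⟩
      rw [Finsupp.single_eq_of_ne hne]
      split_ifs with h
      · have h2 : ¬ (a' = a ∧ b' = b) := fun h3 => hj ⟨h.1, h.2.1, h.2.2, h3⟩
        simp [mon_coeff, h2]
      · simp

theorem EV_t (v l : ℕ) (j : Bool) (a b : ℕ) (y : Bs →₀ F) :
    (((EV v l j y) 4).coeff b).coeff a = y (.t v l j a b) := by
  induction y using Finsupp.induction_linear with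
  | zero => simp
  | add a b ha hb => simp [ha, hb]
  | single β c =>
    have hs : (Finsupp.single β c : Bs →₀ F) = c • bv F β := by simp [bv]
    rw [hs, map_smul, EV_bv]
    cases β <;> simp [ev5, idx, coef, bv]
    rename_i v' l' j' a' b'
    by_cases hj : v' = v ∧ l' = l ∧ j' = j ∧ a' = a ∧ b' = b
    · obtain ⟨rfl, rfl, rfl, rfl, rfl⟩ := hj
      simp [mon_coeff]
    · have hne : Bs.t v l j a b ≠ Bs.t v' l' j' a' b' := by
        intro h
        injection h with h1 h2 h3 h4 h5
        exact hj ⟨h1.symm, h2.symm, h3.symm, h4.symm, h5.symm⟩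
      rw [Finsupp.single_eq_of_ne hne]
      split_ifs with h
      · have h2 : ¬ (a' = a ∧ b' = b) := fun h3 => hj ⟨h.1, h.2.1, h.2.2, h3⟩
        simp [mon_coeff, h2]
      · simp

theorem EV_inj (y : Bs →₀ F) (h : ∀ v l j, EV v l j y = 0) : y = 0 := by
  ext β
  cases β with
  | fin => rw [← EV_fin 0 0 true, h]; simp
  | c j a => rw [← EV_c 0 0, h]; simp
  | b l j a b => rw [← EV_b 0, h]; simp
  | s v l j a b => rw [← EV_s, h]; simp
  | t v l j a b => rw [← EV_t, h]; simp

/-- the standard identities hold on the module -/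
theorem std_module {n : ℕ} (hn : 8 ≤ n) (p : Fin n → FreeAlgebra F (Fin 2))
    (y : Bs →₀ F) : FreeAlgebra.lift F ![Zop F m, Xop F m] (std p) y = 0 := by
  apply EV_inj
  intro v l j
  rw [EV_lift]
  have h1 := std_map (FreeAlgebra.lift F ![Zm F m v l j, Xm F m v l] :
    FreeAlgebra F (Fin 2) →ₐ[F] Matrix (Fin 5) (Fin 5) (F[X][X])).toRingHom p
  have h2 : FreeAlgebra.lift F ![Zm F m v l j, Xm F m v l] (std p) = 0 := by
    refine h1.trans (std_tri hn _ fun i => ?_)
    refine lift_tri (fun k => ?_) _
    fin_cases k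
    · exact Zm_tri m v l j
    · exact Xm_tri m v l
  rw [h2, Matrix.zero_mulVec]

end Pool.Agent.H682R2.StdModule
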