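import Mathlib
import Pool.Agent.Helper707.Alg
import Pool.Agent.Helper707.Words
import Pool.Agent.Helper707.Num
import Pool.Agent.H682R2.StdModule

/-!
The single relator and the equivalence between membership in the ideal and halting, for the
variety defined by a standard identity.
-/

namespace Pool.Agent.H682R2.StdAlg

open Finset Polynomial Pool.Agent.Helper707.Idem Pool.Agent.Helper707.Rel
  Pool.Agent.Helper707.Model Pool.Agent.Helper707.Alg Pool.Agent.H682R2.StdNil
  Pool.Agent.H682R2.StdModule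

universe u

/-- the values of the standard polynomial; `w = false`: only on elements without constant term -/
def vals (F : Type u) [Field F] (n k : ℕ) (w : Bool) : Set (FreeAlgebra F (Fin k)) :=
  {p | ∃ y : Fin n → FreeAlgebra F (Fin k), (w = false → ∀ i, y i ∈ aug F k) ∧ p = std y}

theorem vals_mono (F : Type u) [Field F] (n k : ℕ) (w : Bool) :
    vals F n k false ⊆ vals F n k w := by
  rintro p ⟨y, h, e⟩
  exact ⟨y, fun _ => h rfl, e⟩

variable (F : Type u) [Field F] [CharZero F]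

section mem

variable {F}
variable {B : Type*} [Ring B] [Algebra F B]

theorem rel_mem (I : TwoSidedIdeal B) (Y : Sys) (e : V → B) {x : B} (hx : x ∈ I) (p q : V) :
    rel Y e x p q ∈ I := by
  have hK : ∀ p q, K e x p q ∈ I := fun p q =>
    I.mul_mem_right _ _ (I.mul_mem_left _ _ hx)
  unfold rel
  split
  · exact I.sub_mem (I.mul_mem_left _ _ (hK _ _)) (I.mul_mem_left _ _ (hK _ _))
  · exact I.sub_mem (I.mul_mem_left _ _ (hK _ _)) (I.mul_mem_left _ _ (hK _ _))
  · split_ifs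
    · refine I.sub_mem (I.mul_mem_left _ _ (hK _ _)) ?_
      rw [nsmul_eq_mul]
      exact I.mul_mem_left _ _ (I.mul_mem_left _ _ (hK _ _))
    · exact I.zero_mem
  · exact I.sub_mem (I.mul_mem_left _ _ (hK _ _)) (I.mul_mem_left _ _ (hK _ _))
  · exact I.zero_mem

theorem tel_mem (I : TwoSidedIdeal B) (Y : Sys) (M : ℕ) (z : B) {x : B} (hx : x ∈ I) :
    tel F Y M z x ∈ I := by
  unfold tel Theta
  refine sum_mem fun a _ => sum_mem fun b _ => ?_
  exact I.mul_mem_right _ _ (I.mul_mem_left _ _ (rel_mem I Y _ hx a b))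

omit [CharZero F] in
theorem lift_mem_aug {a b : FreeAlgebra F (Fin 2)} (ha : a ∈ aug F 2) (hb : b ∈ aug F 2)
    {q : FreeAlgebra F (Fin 2)} (hq : q ∈ aug F 2) :
    FreeAlgebra.lift F ![a, b] q ∈ aug F 2 := by
  have hle : aug F 2 ≤ TwoSidedIdeal.comap (FreeAlgebra.lift F ![a, b]) (aug F 2) := by
    unfold aug
    rw [TwoSidedIdeal.span_le]
    rintro _ ⟨i, rfl⟩
    rw [SetLike.mem_coe, TwoSidedIdeal.mem_comap, FreeAlgebra.lift_ι_apply]
    fin_cases i
    · exact ha
    · exact hb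
  exact (TwoSidedIdeal.mem_comap _).1 (hle hq)

end mem

/-- the property of the exponent -/
def NilExp (n R M : ℕ) : Prop := ∀ (B : Type u) [Ring B] [Algebra F B] (z t : B),
  t * z - z * t = aeval z (P F R) →
  (∀ q : Fin n → FreeAlgebra F (Fin 2), (∀ i, q i ∈ aug F 2) →
    std (fun i => FreeAlgebra.lift F ![z, t] (q i)) = 0) →
  (aeval z (P F R)) ^ M = 0

theorem mem_of_halts {Y : Sys} (hm : 0 < Y.m) {n M : ℕ} (hM : 0 < M)
    (hnil : NilExp F n (4 * Y.m + 5) M) (w : Bool) {N : ℕ} (hN : Y.Halts N) :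
    gel F Y (FreeAlgebra.ι F (0 : Fin 2)) (FreeAlgebra.ι F 1) N ∈
      TwoSidedIdeal.span ({fel F Y M (FreeAlgebra.ι F (0 : Fin 2)) (FreeAlgebra.ι F 1)} ∪
        vals F n 2 w) := by
  set z0 : FreeAlgebra F (Fin 2) := FreeAlgebra.ι F 0 with hz0
  set x0 : FreeAlgebra F (Fin 2) := FreeAlgebra.ι F 1 with hx0
  set J := TwoSidedIdeal.span ({fel F Y M z0 x0} ∪ vals F n 2 w) with hJ
  set φ : FreeAlgebra F (Fin 2) →ₐ[F] J.ringCon.Quotient := J.ringCon.mkₐ F with hφ
  have hker : ∀ g, φ g = 0 ↔ g ∈ J := by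
    intro g
    have h1 : g ∈ TwoSidedIdeal.ker J.ringCon.mk' ↔ g ∈ J := by
      rw [TwoSidedIdeal.ker_ringCon_mk']
    rw [← h1, TwoSidedIdeal.mem_ker]
    rfl
  rw [← hker, gel_map]
  set z := φ z0
  set x := φ x0
  -- the relation
  have hf : fel F Y M z x = 0 := by
    rw [← fel_map, hker]
    exact TwoSidedIdeal.subset_span (Or.inl rfl)
  -- nilpotency
  have hnil' : (aeval z (P F (4 * Y.m + 5))) ^ M = 0 := by
    refine hnil J.ringCon.Quotient z (tel F Y M z x) ?_ ?_
    · have : fel F Y M z x = aeval z (P F (4 * Y.m + 5))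
          + (z * tel F Y M z x - tel F Y M z x * z) := rfl
      rw [this] at hf
      rw [eq_comm, ← sub_eq_zero, ← hf]
      abel
    · intro q hq
      have hz0a : z0 ∈ aug F 2 := TwoSidedIdeal.subset_span ⟨0, rfl⟩
      have hx0a : x0 ∈ aug F 2 := TwoSidedIdeal.subset_span ⟨1, rfl⟩
      have h1 : (fun i => FreeAlgebra.lift F ![z, tel F Y M z x] (q i))
          = fun i => φ (FreeAlgebra.lift F ![z0, tel F Y M z0 x0] (q i)) := by
        funext i
        have : FreeAlgebra.lift F ![z, tel F Y M z x]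
            = φ.comp (FreeAlgebra.lift F ![z0, tel F Y M z0 x0]) := by
          apply FreeAlgebra.hom_ext
          funext k
          simp only [Function.comp_apply, FreeAlgebra.lift_ι_apply, AlgHom.comp_apply]
          fin_cases k
          · rfl
          · exact (tel_map φ Y M z0 x0).symm
        rw [this]; rfl
      rw [h1]
      refine (std_map (φ : FreeAlgebra F (Fin 2) →ₐ[F] J.ringCon.Quotient).toRingHom _).symm.trans
        ?_
      refine (hker _).2 (TwoSidedIdeal.subset_span (Or.inr ?_))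
      exact ⟨_, fun _ i => lift_mem_aug hz0a (tel_mem _ Y M z0 hx0a) (hq i), rfl⟩
  obtain ⟨hrel, hP⟩ := single_relation (S := S Y.m) (num := num) (M := M) (F := F)
    (fun a _ b _ h => num_inj h) (fun a ha => num_le ha) hnil' (rel Y (el F Y M z) x) hf
  have he : ∀ p ∈ S Y.m, el F Y M z p * el F Y M z p = el F Y M z p :=
    fun p hp => ee_mul_self hnil' (num_le hp)
  have hR : Rels Y (el F Y M z) x := rels_of he hrel
  rw [gel_eq hm hM x hP, hR.halts_zero hm N hN, smul_zero]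

theorem span_le {Y : Sys} {n M : ℕ} (hn : 8 ≤ n) (hM : 0 < M) (w : Bool) :
    TwoSidedIdeal.span ({fel F Y M (FreeAlgebra.ι F (0 : Fin 2))
      (FreeAlgebra.ι F 1)} ∪ vals F n 2 w) ≤ Jm F Y := by
  rw [TwoSidedIdeal.span_le]
  intro g hg
  rw [SetLike.mem_coe, mem_Jm]
  intro y
  rcases hg with hg | ⟨p, -, rfl⟩
  · rw [Set.mem_singleton_iff] at hg
    rw [hg, lift_fel]
    exact fel_mem_G F hM (Y := Y) y
  · rw [std_module Y.m hn p]
    exact Submodule.zero_mem _

theorem halts_of_mem {Y : Sys} (hm : 0 < Y.m) {n M : ℕ} (hn : 8 ≤ n) (hM : 0 < M) (w : Bool)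
    {N : ℕ} (h : gel F Y (FreeAlgebra.ι F (0 : Fin 2)) (FreeAlgebra.ι F 1) N ∈
      TwoSidedIdeal.span ({fel F Y M (FreeAlgebra.ι F (0 : Fin 2)) (FreeAlgebra.ι F 1)} ∪
        vals F n 2 w)) : Y.Halts N := by
  have h1 := (mem_Jm F).1 (span_le F hn hM w h)
  have h2 := mem_G.1 (h1 (bv F .fin)) (lam F Y) (lam_isW Y)
  rw [lift_gel, gel_fin F hm, map_smul, pair_bv, smul_eq_mul, mul_eq_zero] at h2
  rcases h2 with h5 | h5
  · exact absurd h5 (sc_ne_zero F Y N)
  · by_contra hcon
    have h6 : Pool.Agent.Helper707.Model.val Y 0 true 0 N = N := by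
      simp [Pool.Agent.Helper707.Model.val, Sys.A]
    have h7 : lam F Y (.t 0 0 true 0 N) = 1 := by
      simp only [lam]
      rw [if_neg (by rw [h6]; exact hcon)]
    rw [h7] at h5
    exact one_ne_zero h5

theorem mem_iff {Y : Sys} (hm : 0 < Y.m) {n M : ℕ} (hn : 8 ≤ n) (hM : 0 < M)
    (hnil : NilExp F n (4 * Y.m + 5) M) (w : Bool) {N : ℕ} :
    gel F Y (FreeAlgebra.ι F (0 : Fin 2)) (FreeAlgebra.ι F 1) N ∈
      TwoSidedIdeal.span ({fel F Y M (FreeAlgebra.ι F (0 : Fin 2)) (FreeAlgebra.ι F 1)} ∪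
        vals F n 2 w) ↔ Y.Halts N :=
  ⟨halts_of_mem F hm hn hM w, mem_of_halts F hm hM hnil w⟩

end Pool.Agent.H682R2.StdAlg
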